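import Pool.Agent.K3h45.CT.C8

/-! Subharmonic functions with small errors. -/

set_option autoImplicit false

namespace Pool.Agent.K3h45.CT
open Finset

theorem sub_bound {d : ℕ} (hd : 1 ≤ d) {ξ : ℕ → ℝ} {A : ℝ} (hA0 : 0 ≤ A) (hA : ∀ i < d, |ξ i| ≤ A) {μ : ℝ}
    (hμ : 0 < μ) (hdr : ∑ i ∈ range d, ξ i = -(d * μ)) {K κ β : ℝ} (hK : 0 ≤ K) (hκ : 0 ≤ κ) (hβ : 0 ≤ β)
    {e : ℝ → ℝ} {L U M : ℝ} (hL : A < L) (hb : ∀ t, L - A ≤ t → e t ≤ U)
    (hz : ∀ t, L - A ≤ t → t ≤ L → e t ≤ M)
    (hh : ∀ t, L ≤ t → e t ≤ (∑ i ∈ range d, e (t + ξ i)) / d + K / t ^ 2 + β * (κ * μ) * Real.exp (-(κ * t))) :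
    ∀ t, L - A ≤ t → e t ≤ M + K / μ / (L - A) + β := by
  have hd0 : (0 : ℝ) < d := by exact_mod_cast (by omega : 0 < d)
  have hLA : 0 < L - A := by linarith
  set u : ℝ → ℝ := fun t => e t + K / μ * (1 / t) + β * Real.exp (-(κ * t)) with hu
  have hadd : ∀ t, L - A ≤ t → 0 ≤ K / μ * (1 / t) ∧ 0 ≤ β * Real.exp (-(κ * t)) ∧
      K / μ * (1 / t) ≤ K / μ / (L - A) ∧ β * Real.exp (-(κ * t)) ≤ β := by
    intro t ht
    have ht0 : 0 < t := by linarith
    refine ⟨by positivity, mul_nonneg hβ (Real.exp_pos _).le, ?_, ?_⟩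
    · rw [div_eq_mul_one_div (K / μ) (L - A)]
      exact mul_le_mul_of_nonneg_left (one_div_le_one_div_of_le hLA ht) (by positivity)
    · refine mul_le_of_le_one_right hβ ?_
      rw [Real.exp_le_one_iff]
      have : 0 ≤ κ * t := mul_nonneg hκ ht0.le
      linarith
  have main := max_principle hd (ξ := ξ) (A := A) hA (by rw [hdr]; have := mul_pos hd0 hμ; linarith)
    (e := u) (L := L) (U := U + K / μ / (L - A) + β) (M := M + K / μ / (L - A) + β)
    (fun t ht => by
      have h1 := hb t ht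
      have h2 := hadd t ht
      show e t + K / μ * (1 / t) + β * Real.exp (-(κ * t)) ≤ _
      linarith [h2.2.2.1, h2.2.2.2])
    (fun t ht ht2 => by
      have h1 := hz t ht ht2
      have h2 := hadd t ht
      show e t + K / μ * (1 / t) + β * Real.exp (-(κ * t)) ≤ _
      linarith [h2.2.2.1, h2.2.2.2])
    (fun t ht => by
      have ht0 : 0 < t := by linarith
      have h1 := hh t ht
      have hr : d * (1 / t) + d * μ / t ^ 2 ≤ ∑ i ∈ range d, 1 / (t + ξ i) := by
        have e1 : d * (1 / t) + d * μ / t ^ 2 = ∑ i ∈ range d, (1 / t - ξ i / t ^ 2) := by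
          rw [sum_sub_distrib, sum_const, card_range, nsmul_eq_mul, ← sum_div, hdr]
          ring
        rw [e1]
        refine sum_le_sum fun i hi => ?_
        have h2 := (abs_le.1 (hA i (mem_range.1 hi))).1
        have h3 : 0 < t + ξ i := by linarith
        have e2 : 1 / t - ξ i / t ^ 2 = (t - ξ i) / t ^ 2 := by field_simp
        rw [e2, div_le_div_iff₀ (by positivity) h3]
        nlinarith [sq_nonneg (ξ i)]
      have hx : Real.exp (-(κ * t)) * (d * (1 + κ * μ)) ≤ ∑ i ∈ range d, Real.exp (-(κ * (t + ξ i))) := by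
        have e1 : Real.exp (-(κ * t)) * (d * (1 + κ * μ)) =
            ∑ i ∈ range d, Real.exp (-(κ * t)) * (1 - κ * ξ i) := by
          rw [← mul_sum, sum_sub_distrib, sum_const, card_range, nsmul_eq_mul, ← mul_sum, hdr]
          ring
        rw [e1]
        refine sum_le_sum fun i _ => ?_
        rw [show -(κ * (t + ξ i)) = -(κ * t) + -(κ * ξ i) by ring, Real.exp_add]
        refine mul_le_mul_of_nonneg_left ?_ (Real.exp_pos _).le
        have := Real.add_one_le_exp (-(κ * ξ i))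
        linarith
      have e3 : (∑ i ∈ range d, u (t + ξ i)) / d = (∑ i ∈ range d, e (t + ξ i)) / d +
          K / μ * ((∑ i ∈ range d, 1 / (t + ξ i)) / d) + β * ((∑ i ∈ range d, Real.exp (-(κ * (t + ξ i)))) / d) := by
        have : ∑ i ∈ range d, u (t + ξ i) = ∑ i ∈ range d, e (t + ξ i) + K / μ * ∑ i ∈ range d, 1 / (t + ξ i) +
            β * ∑ i ∈ range d, Real.exp (-(κ * (t + ξ i))) := by
          rw [mul_sum, mul_sum, ← sum_add_distrib, ← sum_add_distrib]
        rw [this]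
        ring
      rw [e3]
      have h4 : 1 / t + μ / t ^ 2 ≤ (∑ i ∈ range d, 1 / (t + ξ i)) / d := by
        rw [le_div_iff₀ hd0]
        refine le_trans (le_of_eq ?_) hr
        ring
      have h5 : Real.exp (-(κ * t)) * (1 + κ * μ) ≤ (∑ i ∈ range d, Real.exp (-(κ * (t + ξ i)))) / d := by
        rw [le_div_iff₀ hd0]
        refine le_trans (le_of_eq ?_) hx
        ring
      have h6 := mul_le_mul_of_nonneg_left h4 (by positivity : 0 ≤ K / μ)
      have h7 := mul_le_mul_of_nonneg_left h5 hβ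
      have e6 : K / μ * (1 / t + μ / t ^ 2) = K / μ * (1 / t) + K / t ^ 2 := by field_simp
      have e7 : β * (Real.exp (-(κ * t)) * (1 + κ * μ)) =
          β * Real.exp (-(κ * t)) + β * (κ * μ) * Real.exp (-(κ * t)) := by ring
      show e t + K / μ * (1 / t) + β * Real.exp (-(κ * t)) ≤ _
      rw [e6] at h6
      rw [e7] at h7
      linarith)
  intro t ht
  have h1 := main t ht
  have h2 := hadd t ht
  have h3 : u t = e t + K / μ * (1 / t) + β * Real.exp (-(κ * t)) := rfl
  rw [h3] at h1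
  linarith [h2.1, h2.2.1]

end Pool.Agent.K3h45.CT
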