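import Mathlib

/-! The expansion of the exponential moments of one step. -/

set_option autoImplicit false

namespace Pool.Agent.K3h45.CT
open Finset Complex

/-- the mean decrease of the logarithm -/
noncomputable def mn (d : ℕ) (ξ : ℕ → ℝ) : ℝ := -(∑ i ∈ range d, ξ i) / d

/-- the variance of one step -/
noncomputable def vr (d : ℕ) (ξ : ℕ → ℝ) : ℝ := (∑ i ∈ range d, (mn d ξ + ξ i) ^ 2) / d

/-- the exponent -/
noncomputable def th (d : ℕ) (ξ : ℕ → ℝ) (s : ℝ) : ℂ :=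
  I * (s / mn d ξ : ℝ) - (vr d ξ * s ^ 2 / (2 * mn d ξ ^ 3) : ℝ)

theorem exp_three (w : ℂ) : ‖exp w - (1 + w + w ^ 2 / 2)‖ ≤ ‖w‖ ^ 3 * Real.exp ‖w‖ := by
  have h := norm_exp_sub_sum_le_norm_mul_exp w 3
  have e : ∑ m ∈ range 3, w ^ m / (m.factorial : ℂ) = 1 + w + w ^ 2 / 2 := by
    simp [sum_range_succ, Nat.factorial]
  rwa [e] at h

theorem expand {d : ℕ} (hd : 1 ≤ d) {ξ : ℕ → ℝ} (hdr : ∑ i ∈ range d, ξ i < 0) :
    ∃ C : ℝ, 0 ≤ C ∧ ∀ s : ℝ, |s| ≤ 1 →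
      ‖exp (I * s) * (∑ i ∈ range d, exp (th d ξ s * ξ i)) / d - 1‖ ≤ C * |s| ^ 3 := by
  have hd0 : (0 : ℝ) < d := by exact_mod_cast (by omega : 0 < d)
  have hdC : (d : ℂ) ≠ 0 := by exact_mod_cast hd0.ne'
  set μ := mn d ξ with hμ
  set v := vr d ξ with hv
  have hμ0 : 0 < μ := div_pos (by linarith) hd0
  have hv0 : 0 ≤ v := div_nonneg (sum_nonneg fun _ _ => sq_nonneg _) hd0.le
  set A := ∑ i ∈ range d, |ξ i| with hA
  have hA0 : 0 ≤ A := sum_nonneg fun _ _ => abs_nonneg _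
  have hAi : ∀ i ∈ range d, |ξ i| ≤ A := fun i hi => single_le_sum (f := fun i => |ξ i|) (fun _ _ => abs_nonneg _) hi
  set α := (∑ i ∈ range d, (μ + ξ i) * ξ i) / d with hα
  set β := (∑ i ∈ range d, ξ i ^ 2) / d with hβ
  have hβ0 : 0 ≤ β := div_nonneg (sum_nonneg fun _ _ => sq_nonneg _) hd0.le
  set B := 1 + A / μ + v * A / (2 * μ ^ 3) with hB
  have hB0 : 0 ≤ B := by positivity
  refine ⟨B ^ 3 * Real.exp B + (v / (2 * μ ^ 4) * |α| + v ^ 2 / (8 * μ ^ 6) * β), by positivity, fun s hs => ?_⟩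
  set p : ℝ := s / μ with hp
  set q : ℝ := v * s ^ 2 / (2 * μ ^ 3) with hq
  have hth : th d ξ s = I * p - q := rfl
  set w : ℕ → ℂ := fun i => I * p * (μ + ξ i) - q * ξ i with hw
  have hwe : ∀ i, exp (I * s) * exp (th d ξ s * ξ i) = exp (w i) := by
    intro i
    rw [← exp_add, hth]
    congr 1
    have : (s : ℂ) = p * μ := by
      rw [hp]
      push_cast
      have : (μ : ℂ) ≠ 0 := by exact_mod_cast hμ0.ne'
      field_simp
    rw [this, hw]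
    ring
  have hs0 : 0 ≤ |s| := abs_nonneg s
  have hs2 : |s| ^ 2 ≤ |s| := by nlinarith
  have hwn : ∀ i ∈ range d, ‖w i‖ ≤ B * |s| := by
    intro i hi
    have h1 : w i = I * (s : ℂ) + (I * p * ξ i - q * ξ i) := by
      rw [hw]
      have : (s : ℂ) = p * μ := by
        rw [hp]
        push_cast
        have : (μ : ℂ) ≠ 0 := by exact_mod_cast hμ0.ne'
        field_simp
      rw [this]
      ring
    rw [h1]
    have n1 : ‖I * (s : ℂ)‖ = |s| := by rw [norm_mul, norm_I, one_mul, norm_real, Real.norm_eq_abs]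
    have n2 : ‖I * (p : ℂ) * ξ i‖ ≤ A / μ * |s| := by
      rw [norm_mul, norm_mul, norm_I, one_mul, norm_real, norm_real, Real.norm_eq_abs, Real.norm_eq_abs, hp, abs_div,
        abs_of_pos hμ0]
      calc |s| / μ * |ξ i| ≤ |s| / μ * A := mul_le_mul_of_nonneg_left (hAi i hi) (by positivity)
        _ = A / μ * |s| := by ring
    have n3 : ‖(q : ℂ) * ξ i‖ ≤ v * A / (2 * μ ^ 3) * |s| := by
      rw [norm_mul, norm_real, norm_real, Real.norm_eq_abs, Real.norm_eq_abs, hq, abs_div, abs_mul, abs_of_nonneg hv0,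
        abs_of_pos (by positivity : (0 : ℝ) < 2 * μ ^ 3), abs_pow]
      calc v * |s| ^ 2 / (2 * μ ^ 3) * |ξ i| ≤ v * |s| / (2 * μ ^ 3) * A := by
            apply mul_le_mul _ (hAi i hi) (abs_nonneg _) (by positivity)
            exact div_le_div_of_nonneg_right (mul_le_mul_of_nonneg_left hs2 hv0) (by positivity)
        _ = v * A / (2 * μ ^ 3) * |s| := by ring
    calc ‖I * (s : ℂ) + (I * p * ξ i - q * ξ i)‖ ≤ ‖I * (s : ℂ)‖ + (‖I * (p : ℂ) * ξ i‖ + ‖(q : ℂ) * ξ i‖) :=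
          (norm_add_le _ _).trans (add_le_add le_rfl (norm_sub_le _ _))
      _ ≤ |s| + (A / μ * |s| + v * A / (2 * μ ^ 3) * |s|) := by rw [n1]; exact add_le_add le_rfl (add_le_add n2 n3)
      _ = B * |s| := by rw [hB]; ring
  set Rm : ℕ → ℂ := fun i => exp (w i) - (1 + w i + w i ^ 2 / 2) with hR
  have hRn : ∀ i ∈ range d, ‖Rm i‖ ≤ B ^ 3 * Real.exp B * |s| ^ 3 := by
    intro i hi
    refine (exp_three (w i)).trans ?_
    have h1 := hwn i hi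
    have h2 : ‖w i‖ ≤ B := h1.trans (by nlinarith)
    calc ‖w i‖ ^ 3 * Real.exp ‖w i‖ ≤ (B * |s|) ^ 3 * Real.exp B :=
          mul_le_mul (pow_le_pow_left₀ (norm_nonneg _) h1 3) (Real.exp_le_exp.2 h2) (Real.exp_pos _).le (by positivity)
      _ = B ^ 3 * Real.exp B * |s| ^ 3 := by ring
  -- the sums
  have s1 : ∑ i ∈ range d, (ξ i : ℂ) = -(d * μ : ℝ) := by
    rw [← ofReal_sum, ← ofReal_neg]
    congr 1
    rw [hμ, mn]
    field_simp
  have s2 : ∑ i ∈ range d, ((μ : ℂ) + ξ i) ^ 2 = (d * v : ℝ) := by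
    have : ∑ i ∈ range d, ((μ : ℂ) + ξ i) ^ 2 = ((∑ i ∈ range d, (μ + ξ i) ^ 2 : ℝ) : ℂ) := by push_cast; rfl
    rw [this]
    congr 1
    rw [hv, vr, ← hμ]
    field_simp
  have s3 : ∑ i ∈ range d, ((μ : ℂ) + ξ i) * ξ i = (d * α : ℝ) := by
    have : ∑ i ∈ range d, ((μ : ℂ) + ξ i) * ξ i = ((∑ i ∈ range d, (μ + ξ i) * ξ i : ℝ) : ℂ) := by push_cast; rfl
    rw [this]
    congr 1
    rw [hα]
    field_simp
  have s4 : ∑ i ∈ range d, (ξ i : ℂ) ^ 2 = (d * β : ℝ) := by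
    have : ∑ i ∈ range d, (ξ i : ℂ) ^ 2 = ((∑ i ∈ range d, ξ i ^ 2 : ℝ) : ℂ) := by push_cast; rfl
    rw [this]
    congr 1
    rw [hβ]
    field_simp
  have s0 : ∑ i ∈ range d, ((μ : ℂ) + ξ i) = 0 := by
    rw [sum_add_distrib, s1, sum_const, card_range, nsmul_eq_mul]
    push_cast
    ring
  have hqp : q * μ = p ^ 2 * v / 2 := by
    rw [hq, hp]
    field_simp
  have hI : I ^ 2 = -1 := I_sq
  have hsum : ∑ i ∈ range d, (1 + w i + w i ^ 2 / 2) = d * (1 + (-I * p * q * α + q ^ 2 * β / 2)) := by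
    have e : ∀ i ∈ range d, 1 + w i + w i ^ 2 / 2 = 1 + I * p * ((μ : ℂ) + ξ i) - q * (ξ i : ℂ)
        - p ^ 2 / 2 * ((μ : ℂ) + ξ i) ^ 2 - I * p * q * (((μ : ℂ) + ξ i) * ξ i) + q ^ 2 / 2 * (ξ i : ℂ) ^ 2 := by
      intro i _
      rw [hw]
      simp only
      linear_combination ((p : ℂ) ^ 2 * ((μ : ℂ) + ξ i) ^ 2 / 2) * hI
    rw [sum_congr rfl e, sum_add_distrib, sum_sub_distrib, sum_sub_distrib, sum_sub_distrib, sum_add_distrib,
      ← mul_sum, ← mul_sum, ← mul_sum, ← mul_sum, ← mul_sum, s0, s1, s2, s3, s4, sum_const, card_range, nsmul_eq_mul]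
    have hqpC : (q : ℂ) * μ = p ^ 2 * v / 2 := by exact_mod_cast hqp
    push_cast
    linear_combination (d : ℂ) * hqpC
  have hmain : exp (I * s) * (∑ i ∈ range d, exp (th d ξ s * ξ i)) / d - 1 =
      (∑ i ∈ range d, Rm i) / d + (-I * p * q * α + q ^ 2 * β / 2) := by
    rw [mul_sum, sum_congr rfl (fun i _ => hwe i)]
    have e : ∑ i ∈ range d, exp (w i) = ∑ i ∈ range d, Rm i + ∑ i ∈ range d, (1 + w i + w i ^ 2 / 2) := by
      rw [← sum_add_distrib]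
      exact sum_congr rfl fun i _ => by rw [hR]; ring
    rw [e, hsum]
    field_simp
    ring
  rw [hmain]
  have b1 : ‖(∑ i ∈ range d, Rm i) / (d : ℂ)‖ ≤ B ^ 3 * Real.exp B * |s| ^ 3 := by
    rw [norm_div, norm_natCast, div_le_iff₀ hd0]
    refine (norm_sum_le _ _).trans ((sum_le_card_nsmul _ _ _ hRn).trans (le_of_eq ?_))
    rw [card_range, nsmul_eq_mul]
    ring
  have b2 : ‖-I * (p : ℂ) * q * α‖ ≤ v / (2 * μ ^ 4) * |α| * |s| ^ 3 := by
    rw [norm_mul, norm_mul, norm_mul, norm_neg, norm_I, one_mul, norm_real, norm_real, norm_real, Real.norm_eq_abs,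
      Real.norm_eq_abs, Real.norm_eq_abs, hp, hq, abs_div, abs_div, abs_mul, abs_of_pos hμ0, abs_of_nonneg hv0,
      abs_of_pos (by positivity : (0 : ℝ) < 2 * μ ^ 3), abs_pow]
    refine le_of_eq ?_
    field_simp
  have b3 : ‖(q : ℂ) ^ 2 * β / 2‖ ≤ v ^ 2 / (8 * μ ^ 6) * β * |s| ^ 3 := by
    have e : (q : ℂ) ^ 2 * β / 2 = ((q ^ 2 * β / 2 : ℝ) : ℂ) := by push_cast; ring
    rw [e, norm_real, Real.norm_eq_abs, abs_of_nonneg (by positivity)]
    have e2 : q ^ 2 = v ^ 2 / (4 * μ ^ 6) * |s| ^ 4 := by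
      rw [hq, show |s| ^ 4 = s ^ 4 by rw [show |s| ^ 4 = (|s| ^ 2) ^ 2 by ring, sq_abs]; ring]
      field_simp
      ring
    rw [e2]
    have h4 : |s| ^ 4 ≤ |s| ^ 3 := by
      have : |s| ^ 4 = |s| ^ 3 * |s| := by ring
      rw [this]
      exact mul_le_of_le_one_right (by positivity) hs
    calc v ^ 2 / (4 * μ ^ 6) * |s| ^ 4 * β / 2 = v ^ 2 / (8 * μ ^ 6) * β * |s| ^ 4 := by ring
      _ ≤ v ^ 2 / (8 * μ ^ 6) * β * |s| ^ 3 := mul_le_mul_of_nonneg_left h4 (by positivity)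
  calc ‖(∑ i ∈ range d, Rm i) / (d : ℂ) + (-I * p * q * α + q ^ 2 * β / 2)‖ ≤
        ‖(∑ i ∈ range d, Rm i) / (d : ℂ)‖ + (‖-I * (p : ℂ) * q * α‖ + ‖(q : ℂ) ^ 2 * β / 2‖) :=
        (norm_add_le _ _).trans (add_le_add le_rfl (norm_add_le _ _))
    _ ≤ B ^ 3 * Real.exp B * |s| ^ 3 + (v / (2 * μ ^ 4) * |α| * |s| ^ 3 + v ^ 2 / (8 * μ ^ 6) * β * |s| ^ 3) :=
        add_le_add b1 (add_le_add b2 b3)
    _ = _ := by ring

theorem re_add_im_mul_I_aux (a b : ℝ) : ((a : ℂ) + (b : ℂ) * I).re = a := by simp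

theorem norm_exp_th {d : ℕ} {ξ : ℕ → ℝ} (s t : ℝ) :
    ‖exp (th d ξ s * t)‖ = Real.exp (-(vr d ξ / (2 * mn d ξ ^ 3) * s ^ 2 * t)) := by
  rw [norm_exp]
  congr 1
  have e : th d ξ s * t = ((-(vr d ξ / (2 * mn d ξ ^ 3) * s ^ 2 * t) : ℝ) : ℂ) + ((s / mn d ξ * t : ℝ) : ℂ) * I := by
    unfold th
    push_cast
    ring
  rw [e, re_add_im_mul_I_aux]

end Pool.Agent.K3h45.CT
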