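import Pool.Agent.K3h45.CT.C7
import Pool.Agent.K3h45.CT.C9
import Pool.Agent.K3h45.CT.C10

/-! Eventually invariant sets with a time: the functions `exp (i s τ)`. -/

set_option autoImplicit false

namespace Pool.Agent.K3h45.CT
open Pool.Agent.H319R3.GC Pool.Agent.H319R3.DN Finset Filter Topology

variable {d : ℕ} {m r : ℕ → ℤ}

/-- the steps of the logarithm -/
noncomputable def xi (d : ℕ) (m : ℕ → ℤ) (i : ℕ) : ℝ := Real.log (|(m i : ℝ)| / d)

/-- a set which is invariant outside `[-R, R]`, and a function which grows by one in each step -/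
structure Tim (d : ℕ) (m r : ℕ → ℤ) (R : ℝ) (S : Set ℤ) (τ : ℤ → ℝ) : Prop where
  inv : ∀ x : ℤ, R < |(x : ℝ)| → (x ∈ S ↔ Tm d m r x ∈ S)
  tim : ∀ x : ℤ, R < |(x : ℝ)| → x ∈ S → τ x = τ (Tm d m r x) + 1

open Classical in
/-- the function `exp (i s τ)` on `S` -/
noncomputable def ff (S : Set ℤ) (τ : ℤ → ℝ) (s : ℝ) (x : ℤ) : ℂ :=
  if x ∈ S then Complex.exp (Complex.I * ((s * τ x : ℝ) : ℂ)) else 0

theorem norm_exp_I (x : ℝ) : ‖Complex.exp (Complex.I * (x : ℂ))‖ = 1 := by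
  rw [mul_comm, Complex.norm_exp_ofReal_mul_I]

theorem ff_norm (S : Set ℤ) (τ : ℤ → ℝ) (s : ℝ) (x : ℤ) : ‖ff S τ s x‖ ≤ 1 := by
  unfold ff
  split_ifs
  · rw [norm_exp_I]
  · rw [norm_zero]; norm_num

theorem ff_eig {R : ℝ} {S : Set ℤ} {τ : ℤ → ℝ} (hS : Tim d m r R S τ) (s : ℝ) :
    Eig d m r R (Complex.exp (Complex.I * (s : ℂ))) (ff S τ s) := by
  refine ⟨ff_norm S τ s, norm_exp_I s, fun x hx => ?_⟩
  unfold ff
  by_cases h : x ∈ S
  · rw [if_pos h, if_pos ((hS.inv x hx).1 h), hS.tim x hx h, ← Complex.exp_add]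
    congr 1
    push_cast
    ring
  · rw [if_neg h, if_neg (fun h' => h ((hS.inv x hx).2 h')), mul_zero]

theorem Aw_zero (S : Set ℤ) (τ : ℤ → ℝ) {σ : ℤ} (hσ : σ = 1 ∨ σ = -1) (t : ℝ) :
    Aw (ff S τ 0) σ t = ((Fw S σ t : ℝ) : ℂ) := by
  classical
  unfold Aw Fw
  rw [nw_card S hσ]
  push_cast
  congr 1
  unfold ws
  rw [card_filter]
  push_cast
  refine sum_congr rfl fun x _ => ?_
  unfold ff
  split_ifs <;> simp

theorem Aw_sub_le {f g : ℤ → ℂ} {σ : ℤ} (hσ : σ = 1 ∨ σ = -1) {t δ : ℝ} (ht : 0 ≤ t) (hδ : 0 ≤ δ)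
    (h : ∀ x ∈ Wn σ (Real.exp t) (2 * Real.exp t) 1 0, ‖f x - g x‖ ≤ δ) : ‖Aw f σ t - Aw g σ t‖ ≤ 2 * δ := by
  unfold Aw ws
  have he := Real.exp_pos t
  rw [← sub_div, ← sum_sub_distrib, norm_div, Complex.norm_real, Real.norm_eq_abs, abs_of_pos he, div_le_iff₀ he]
  refine (norm_sum_le _ _).trans ((sum_le_card_nsmul _ _ δ h).trans ?_)
  rw [nsmul_eq_mul]
  have h1 := card_Wn hσ (by linarith : Real.exp t ≤ 2 * Real.exp t) (Q := 1) one_pos 0
  have h2 : 1 ≤ Real.exp t := Real.one_le_exp ht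
  rw [Nat.cast_one, div_one] at h1
  calc ((Wn σ (Real.exp t) (2 * Real.exp t) 1 0).card : ℝ) * δ ≤ (2 * Real.exp t) * δ :=
        mul_le_mul_of_nonneg_right (by linarith) hδ
    _ = 2 * δ * Real.exp t := by ring

theorem vr_pos (h : Adm d m r) {i j : ℕ} (hi : i < d) (hj : j < d)
    (hij : (m i).natAbs ≠ (m j).natAbs) : 0 < vr d (xi d m) := by
  have hd2 := h.two_le
  have hd0 : (0 : ℝ) < d := by exact_mod_cast (by omega : 0 < d)
  unfold vr
  refine div_pos ?_ hd0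
  by_contra hcon
  have h0 : ∑ k ∈ range d, (mn d (xi d m) + xi d m k) ^ 2 = 0 :=
    le_antisymm (not_lt.1 hcon) (sum_nonneg fun _ _ => sq_nonneg _)
  rw [sum_eq_zero_iff_of_nonneg fun _ _ => sq_nonneg _] at h0
  have hi0 := h0 i (mem_range.2 hi)
  have hj0 := h0 j (mem_range.2 hj)
  rw [sq_eq_zero_iff] at hi0 hj0
  have h1 : xi d m i = xi d m j := by linarith
  unfold xi at h1
  have hmi : 0 < |(m i : ℝ)| := abs_pos.2 (by exact_mod_cast t7_ne h hi)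
  have hmj : 0 < |(m j : ℝ)| := abs_pos.2 (by exact_mod_cast t7_ne h hj)
  have h2 := Real.log_injOn_pos (Set.mem_Ioi.2 (by positivity : 0 < |(m i : ℝ)| / d))
    (Set.mem_Ioi.2 (by positivity : 0 < |(m j : ℝ)| / d)) h1
  rw [div_left_inj' hd0.ne'] at h2
  apply hij
  have h3 : (((m i).natAbs : ℕ) : ℝ) = (((m j).natAbs : ℕ) : ℝ) := by
    rw [Nat.cast_natAbs, Nat.cast_natAbs]
    push_cast
    exact h2
  exact_mod_cast h3

theorem drift_eq (h : Adm d m r) : 0 < mn d (xi d m) ∧ ∑ i ∈ range d, xi d m i = -(d * mn d (xi d m)) := by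
  have hd2 := h.two_le
  have hd0 : (0 : ℝ) < d := by exact_mod_cast (by omega : 0 < d)
  constructor
  · exact div_pos (by have := drift h; unfold xi; linarith) hd0
  · unfold mn
    field_simp

/-- the limits and their symmetry -/
theorem limits (h : Adm d m r) {i j : ℕ} (hi : i < d) (hj : j < d)
    (hij : (m i).natAbs ≠ (m j).natAbs) {R : ℝ} (hR : 0 ≤ R) {S : Set ℤ} {τ : ℤ → ℝ} (hS : Tim d m r R S τ) :
    ∃ l : ℤ → ℝ, (∀ σ : ℤ, (σ = 1 ∨ σ = -1) → Tendsto (Fw S σ) atTop (𝓝 (l σ))) ∧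
      ((∃ i < d, m i < 0) → l 1 = l (-1)) := by
  obtain ⟨K, hK, H⟩ := harm_e h
  obtain ⟨t₀, ht₀, H⟩ := H R hR
  refine limF h hi hj hij ht₀ (K := K) fun σ hσ t ht => ?_
  have h1 := H _ _ (ff_eig hS 0) σ hσ t ht
  have hτ : ∀ i ∈ range d, σ * (m i).sign = 1 ∨ σ * (m i).sign = -1 := by
    intro i hi
    have hm0 := t7_ne h (mem_range.1 hi)
    rcases hσ with rfl | rfl <;> rcases lt_or_gt_of_ne hm0 with h1 | h1
    · right; rw [Int.sign_eq_neg_one_of_neg h1]; norm_num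
    · left; rw [Int.sign_eq_one_of_pos h1]; norm_num
    · left; rw [Int.sign_eq_neg_one_of_neg h1]; norm_num
    · right; rw [Int.sign_eq_one_of_pos h1]; norm_num
  rw [Aw_zero S τ hσ, sum_congr rfl (fun i hi => Aw_zero S τ (hτ i hi) _)] at h1
  have e : ((Fw S σ t : ℝ) : ℂ) - Complex.exp (Complex.I * ((0 : ℝ) : ℂ)) *
      (∑ i ∈ range d, ((Fw S (σ * (m i).sign) (t + Real.log (|(m i : ℝ)| / d)) : ℝ) : ℂ)) / d =
      (((Fw S σ t - (∑ i ∈ range d, Fw S (σ * (m i).sign) (t + Real.log (|(m i : ℝ)| / d))) / d) : ℝ) : ℂ) := by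
    push_cast
    rw [mul_zero, Complex.exp_zero, one_mul]
  rw [e, Complex.norm_real, Real.norm_eq_abs] at h1
  exact h1

end Pool.Agent.K3h45.CT
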