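import Pool.Agent.K3h45.CT.C11

/-! The comparison with the exponential function. -/

set_option autoImplicit false

namespace Pool.Agent.K3h45.CT
open Pool.Agent.H319R3.GC Pool.Agent.H319R3.DN Finset Filter Topology

variable {d : ℕ} {m r : ℕ → ℤ}

/-- the difference -/
noncomputable def Ee (d : ℕ) (m : ℕ → ℤ) (S : Set ℤ) (τ : ℤ → ℝ) (l : ℤ → ℝ) (s : ℝ) (σ : ℤ) (t : ℝ) : ℂ :=
  Aw (ff S τ s) σ t - l σ * Complex.exp (th d (xi d m) s * t)

theorem Ee_rec (h : Adm d m r) {i j : ℕ} (hi : i < d) (hj : j < d)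
    (hij : (m i).natAbs ≠ (m j).natAbs) {R : ℝ} (hR : 0 ≤ R) {S : Set ℤ} {τ : ℤ → ℝ} (hS : Tim d m r R S τ)
    {l : ℤ → ℝ} (hl : ∀ σ : ℤ, (σ = 1 ∨ σ = -1) → Tendsto (Fw S σ) atTop (𝓝 (l σ)))
    (hneg : (∃ i < d, m i < 0) → l 1 = l (-1)) :
    ∃ K C t₀ : ℝ, 0 ≤ K ∧ 0 ≤ C ∧ 1 ≤ t₀ ∧ ∀ s : ℝ, |s| ≤ 1 → ∀ σ : ℤ, (σ = 1 ∨ σ = -1) → ∀ t : ℝ, t₀ ≤ t →
      ‖Ee d m S τ l s σ t‖ ≤ (∑ i ∈ range d, ‖Ee d m S τ l s (σ * (m i).sign) (t + xi d m i)‖) / d + K / t ^ 2 +
        C * |s| ^ 3 * Real.exp (-(vr d (xi d m) / (2 * mn d (xi d m) ^ 3) * s ^ 2 * t)) := by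
  obtain ⟨K, hK, H⟩ := harm_e h
  obtain ⟨t₀, ht₀, H⟩ := H R hR
  have hd2 := h.two_le
  have hd0 : (0 : ℝ) < d := by exact_mod_cast (by omega : 0 < d)
  have hdC : (d : ℂ) ≠ 0 := by exact_mod_cast hd0.ne'
  obtain ⟨C, hC, HC⟩ := expand (by omega : 1 ≤ d) (ξ := xi d m) (by have := drift h; unfold xi; exact this)
  have hl0 : ∀ σ : ℤ, (σ = 1 ∨ σ = -1) → |l σ| ≤ 2 := by
    intro σ hσ
    rw [abs_of_nonneg (ge_of_tendsto' (hl σ hσ) fun t => Fw_nonneg S σ t)]
    exact le_of_tendsto (hl σ hσ) (Filter.eventually_atTop.2 ⟨0, fun t ht => Fw_le S hσ ht⟩)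
  have hls : ∀ σ : ℤ, (σ = 1 ∨ σ = -1) → ∀ i ∈ range d, l (σ * (m i).sign) = l σ := by
    intro σ hσ i hi
    have hm0 := t7_ne h (mem_range.1 hi)
    rcases lt_or_gt_of_ne hm0 with h1 | h1
    · have h2 := hneg ⟨i, mem_range.1 hi, h1⟩
      rw [Int.sign_eq_neg_one_of_neg h1]
      rcases hσ with rfl | rfl
      · rw [one_mul, h2]
      · rw [neg_one_mul, neg_neg, h2]
    · rw [Int.sign_eq_one_of_pos h1, mul_one]
  refine ⟨K, 2 * C, t₀, hK.le, by positivity, ht₀, fun s hs σ hσ t ht => ?_⟩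
  have h1 := H _ _ (ff_eig hS s) σ hσ t ht
  have h2 := HC s hs
  set u := Complex.exp (Complex.I * (s : ℂ)) with hu
  have hun : ‖u‖ = 1 := norm_exp_I s
  have e1 : Ee d m S τ l s σ t = (Aw (ff S τ s) σ t -
      u * (∑ i ∈ range d, Aw (ff S τ s) (σ * (m i).sign) (t + Real.log (|(m i : ℝ)| / d))) / d) +
      u * (∑ i ∈ range d, Ee d m S τ l s (σ * (m i).sign) (t + xi d m i)) / d +
      l σ * Complex.exp (th d (xi d m) s * t) *
        (u * (∑ i ∈ range d, Complex.exp (th d (xi d m) s * xi d m i)) / d - 1) := by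
    have e2 : ∑ i ∈ range d, Ee d m S τ l s (σ * (m i).sign) (t + xi d m i) =
        ∑ i ∈ range d, Aw (ff S τ s) (σ * (m i).sign) (t + Real.log (|(m i : ℝ)| / d)) -
        l σ * Complex.exp (th d (xi d m) s * t) * ∑ i ∈ range d, Complex.exp (th d (xi d m) s * xi d m i) := by
      rw [mul_sum, ← sum_sub_distrib]
      refine sum_congr rfl fun i hi => ?_
      unfold Ee
      rw [hls σ hσ i hi]
      have e3 : Complex.exp (th d (xi d m) s * ((t + xi d m i : ℝ) : ℂ)) =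
          Complex.exp (th d (xi d m) s * t) * Complex.exp (th d (xi d m) s * xi d m i) := by
        rw [← Complex.exp_add]
        congr 1
        push_cast
        ring
      rw [e3, mul_assoc]
      rfl
    rw [e2]
    unfold Ee
    field_simp
    ring
  rw [e1]
  refine (norm_add_le _ _).trans (add_le_add ((norm_add_le _ _).trans ?_) ?_)
  · rw [add_comm]
    refine add_le_add ?_ h1
    rw [norm_div, norm_mul, hun, one_mul, Complex.norm_natCast]
    exact div_le_div_of_nonneg_right (norm_sum_le _ _) hd0.le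
  · rw [norm_mul, norm_mul, norm_exp_th, Complex.norm_real, Real.norm_eq_abs]
    have h3 := hl0 σ hσ
    have h4 := Real.exp_pos (-(vr d (xi d m) / (2 * mn d (xi d m) ^ 3) * s ^ 2 * t))
    calc |l σ| * Real.exp (-(vr d (xi d m) / (2 * mn d (xi d m) ^ 3) * s ^ 2 * t)) *
          ‖u * (∑ i ∈ range d, Complex.exp (th d (xi d m) s * xi d m i)) / d - 1‖ ≤
          2 * Real.exp (-(vr d (xi d m) / (2 * mn d (xi d m) ^ 3) * s ^ 2 * t)) * (C * |s| ^ 3) :=
          mul_le_mul (mul_le_mul_of_nonneg_right h3 h4.le) h2 (norm_nonneg _) (by positivity)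
      _ = _ := by ring

/-- the maximum over the two sides -/
noncomputable def ee (d : ℕ) (m : ℕ → ℤ) (S : Set ℤ) (τ : ℤ → ℝ) (l : ℤ → ℝ) (s : ℝ) (t : ℝ) : ℝ :=
  max ‖Ee d m S τ l s 1 t‖ ‖Ee d m S τ l s (-1) t‖

theorem le_ee (S : Set ℤ) (τ : ℤ → ℝ) (l : ℤ → ℝ) (s : ℝ) {σ : ℤ} (hσ : σ = 1 ∨ σ = -1) (t : ℝ) :
    ‖Ee d m S τ l s σ t‖ ≤ ee d m S τ l s t := by
  rcases hσ with rfl | rfl
  · exact le_max_left _ _
  · exact le_max_right _ _

/-- THE COMPARISON THEOREM -/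
theorem comp (h : Adm d m r) {i j : ℕ} (hi : i < d) (hj : j < d)
    (hij : (m i).natAbs ≠ (m j).natAbs) {R : ℝ} (hR : 0 ≤ R) {S : Set ℤ} {τ : ℤ → ℝ} (hS : Tim d m r R S τ)
    {l : ℤ → ℝ} (hl : ∀ σ : ℤ, (σ = 1 ∨ σ = -1) → Tendsto (Fw S σ) atTop (𝓝 (l σ)))
    (hneg : (∃ i < d, m i < 0) → l 1 = l (-1)) {ε : ℝ} (hε : 0 < ε) :
    ∃ L s₀ : ℝ, 1 ≤ L ∧ 0 < s₀ ∧ ∀ s : ℝ, |s| ≤ s₀ → ∀ σ : ℤ, (σ = 1 ∨ σ = -1) → ∀ t : ℝ, L ≤ t →
      ‖Aw (ff S τ s) σ t - l σ * Complex.exp (th d (xi d m) s * t)‖ ≤ ε := by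
  classical
  obtain ⟨K, C, t₀, hK, hC, ht₀, H⟩ := Ee_rec h hi hj hij hR hS hl hneg
  have hd2 := h.two_le
  have hd0 : (0 : ℝ) < d := by exact_mod_cast (by omega : 0 < d)
  obtain ⟨hμ, hdr⟩ := drift_eq h
  have hv := vr_pos h hi hj hij
  set μ := mn d (xi d m) with hμd
  set v := vr d (xi d m) with hvd
  set c := v / (2 * μ ^ 3) with hc
  have hc0 : 0 < c := by positivity
  set A := ∑ i ∈ range d, |xi d m i| with hA
  have hA0 : 0 ≤ A := sum_nonneg fun _ _ => abs_nonneg _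
  have hAi : ∀ i < d, |xi d m i| ≤ A := fun i hi =>
    single_le_sum (f := fun i => |xi d m i|) (fun _ _ => abs_nonneg _) (mem_range.2 hi)
  have hl0 : ∀ σ : ℤ, (σ = 1 ∨ σ = -1) → |l σ| ≤ 2 := by
    intro σ hσ
    rw [abs_of_nonneg (ge_of_tendsto' (hl σ hσ) fun t => Fw_nonneg S σ t)]
    exact le_of_tendsto (hl σ hσ) (Filter.eventually_atTop.2 ⟨0, fun t ht => Fw_le S hσ ht⟩)
  -- the level L
  have p1 : (1 : ℤ) = 1 ∨ (1 : ℤ) = -1 := Or.inl rfl
  have p2 : (-1 : ℤ) = 1 ∨ (-1 : ℤ) = -1 := Or.inr rfl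
  obtain ⟨L1, hL1⟩ := Metric.tendsto_atTop.1 (hl 1 p1) (ε / 8) (by positivity)
  obtain ⟨L2, hL2⟩ := Metric.tendsto_atTop.1 (hl (-1) p2) (ε / 8) (by positivity)
  set L := A + t₀ + |L1| + |L2| + 8 * (K / μ) / ε + 1 with hL
  have hLA : t₀ + |L1| + |L2| + 8 * (K / μ) / ε + 1 = L - A := by rw [hL]; ring
  have hLA0 : 0 < L - A := by rw [← hLA]; positivity
  have hL0 : 1 ≤ L := by
    have : 0 ≤ |L1| + |L2| + 8 * (K / μ) / ε := by positivity
    linarith
  have hLK : K / μ / (L - A) ≤ ε / 8 := by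
    rw [div_le_iff₀ hLA0]
    have h1 : 8 * (K / μ) / ε ≤ L - A := by
      rw [← hLA]
      have : 0 ≤ t₀ + |L1| + |L2| := by positivity
      linarith
    rw [div_le_iff₀ hε] at h1
    linarith
  have hFl : ∀ σ : ℤ, (σ = 1 ∨ σ = -1) → ∀ t, L - A ≤ t → |Fw S σ t - l σ| ≤ ε / 8 := by
    intro σ hσ t ht
    have h1 := le_abs_self L1
    have h2 := le_abs_self L2
    have h3 : 0 ≤ 8 * (K / μ) / ε := by positivity
    have h4 := abs_nonneg L1
    have h5 := abs_nonneg L2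
    rcases hσ with rfl | rfl
    · have := (hL1 t (by linarith)).le
      rwa [Real.dist_eq] at this
    · have := (hL2 t (by linarith)).le
      rwa [Real.dist_eq] at this
  -- the bound for the time
  set N := ⌈2 * Real.exp L⌉ with hN
  set Tm' := ∑ x ∈ Finset.Icc (-N) N, |τ x| with hTm
  have hTm0 : 0 ≤ Tm' := sum_nonneg fun _ _ => abs_nonneg _
  have hTx : ∀ x : ℤ, |(x : ℝ)| ≤ 2 * Real.exp L → |τ x| ≤ Tm' := by
    intro x hx
    refine single_le_sum (f := fun x => |τ x|) (fun _ _ => abs_nonneg _) ?_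
    have h1 : |(x : ℝ)| ≤ N := hx.trans (Int.le_ceil _)
    rw [abs_le] at h1
    rw [Finset.mem_Icc]
    constructor
    · exact_mod_cast h1.1
    · exact_mod_cast h1.2
  set D := 1 / μ + c with hD
  have hD0 : 0 < D := by positivity
  have hthn : ∀ s : ℝ, |s| ≤ 1 → ‖th d (xi d m) s‖ ≤ D * |s| := by
    intro s hs
    unfold th
    refine (norm_sub_le _ _).trans ?_
    rw [norm_mul, Complex.norm_I, one_mul, Complex.norm_real, Complex.norm_real, Real.norm_eq_abs, Real.norm_eq_abs,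
      abs_div, abs_of_pos hμ]
    have h1 : |v * s ^ 2 / (2 * μ ^ 3)| ≤ c * |s| := by
      rw [abs_of_nonneg (by positivity), hc]
      have h2 : s ^ 2 ≤ |s| := by
        rw [← sq_abs]
        have := abs_nonneg s
        nlinarith
      calc v * s ^ 2 / (2 * μ ^ 3) = v / (2 * μ ^ 3) * s ^ 2 := by ring
        _ ≤ v / (2 * μ ^ 3) * |s| := mul_le_mul_of_nonneg_left h2 (by positivity)
    have h3 : |s| / μ = 1 / μ * |s| := by ring
    rw [h3, hD, add_mul]
    linarith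
  set s₀ : ℝ := min 1 (min (ε / (16 * (Tm' + 1))) (min (ε / (32 * D * L)) (min (1 / (D * L)) (ε * c * μ / (8 * (C + 1)))))) with hs₀
  have hs₀0 : 0 < s₀ := by
    rw [hs₀]
    refine lt_min one_pos (lt_min (by positivity) (lt_min (by positivity) (lt_min (by positivity) (by positivity))))
  refine ⟨L, s₀, hL0, hs₀0, fun s hs σ hσ t ht => ?_⟩
  have g1 : |s| ≤ 1 := hs.trans (min_le_left _ _)
  have hs1 : |s| ≤ min (ε / (16 * (Tm' + 1))) (min (ε / (32 * D * L)) (min (1 / (D * L)) (ε * c * μ / (8 * (C + 1))))) :=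
    hs.trans (min_le_right _ _)
  have g2 : |s| ≤ ε / (16 * (Tm' + 1)) := hs1.trans (min_le_left _ _)
  have hs2 := hs1.trans (min_le_right _ _)
  have g3 : |s| ≤ ε / (32 * D * L) := hs2.trans (min_le_left _ _)
  have hs3 := hs2.trans (min_le_right _ _)
  have g4 : |s| ≤ 1 / (D * L) := hs3.trans (min_le_left _ _)
  have g5 : |s| ≤ ε * c * μ / (8 * (C + 1)) := hs3.trans (min_le_right _ _)
  have hs0 := abs_nonneg s
  rw [le_div_iff₀ (by positivity)] at g2 g3 g4 g5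
  -- zone
  have zone : ∀ σ : ℤ, (σ = 1 ∨ σ = -1) → ∀ t, L - A ≤ t → t ≤ L → ‖Ee d m S τ l s σ t‖ ≤ 3 * (ε / 8) := by
    intro σ hσ t h1 h2
    have ht0 : 0 ≤ t := by linarith
    have k1 : ‖Aw (ff S τ s) σ t - Aw (ff S τ 0) σ t‖ ≤ 2 * (|s| * Tm') := by
      refine Aw_sub_le hσ ht0 (by positivity) fun x hx => ?_
      have hxa := abs_of_mem hσ (Real.exp_pos t).le hx
      unfold ff
      by_cases hxS : x ∈ S
      · rw [if_pos hxS, if_pos hxS, zero_mul, Complex.ofReal_zero, mul_zero, Complex.exp_zero]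
        refine (Real.norm_exp_I_mul_ofReal_sub_one_le).trans ?_
        rw [Real.norm_eq_abs, abs_mul]
        refine mul_le_mul_of_nonneg_left (hTx x ?_) hs0
        refine hxa.2.le.trans ?_
        have := Real.exp_le_exp.2 h2
        linarith
      · rw [if_neg hxS, if_neg hxS, sub_zero, norm_zero]
        positivity
    rw [Aw_zero S τ hσ] at k1
    have k2 := hFl σ hσ t h1
    have k3 : ‖(l σ : ℂ) * (1 - Complex.exp (th d (xi d m) s * t))‖ ≤ 2 * (2 * (D * |s| * L)) := by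
      rw [norm_mul, Complex.norm_real, Real.norm_eq_abs]
      have n1 : ‖th d (xi d m) s * (t : ℂ)‖ ≤ D * |s| * L := by
        rw [norm_mul, Complex.norm_real, Real.norm_eq_abs, abs_of_nonneg ht0]
        exact mul_le_mul (hthn s g1) h2 ht0 (by positivity)
      have n2 : ‖th d (xi d m) s * (t : ℂ)‖ ≤ 1 := by
        refine n1.trans ?_
        linarith
      have n3 := Complex.norm_exp_sub_one_le n2
      rw [norm_sub_rev]
      refine mul_le_mul (hl0 σ hσ) (n3.trans ?_) (norm_nonneg _) (by norm_num)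
      linarith
    have e1 : Ee d m S τ l s σ t = (Aw (ff S τ s) σ t - ((Fw S σ t : ℝ) : ℂ)) + (((Fw S σ t - l σ : ℝ)) : ℂ) +
        (l σ : ℂ) * (1 - Complex.exp (th d (xi d m) s * t)) := by
      unfold Ee
      push_cast
      ring
    rw [e1]
    refine (norm_add_le _ _).trans ((add_le_add ((norm_add_le _ _).trans (add_le_add k1 le_rfl)) k3).trans ?_)
    rw [Complex.norm_real, Real.norm_eq_abs]
    have q1 : 2 * (|s| * Tm') ≤ ε / 8 := by nlinarith
    have q2 : 2 * (2 * (D * |s| * L)) ≤ ε / 8 := by nlinarith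
    linarith
  have bdd : ∀ t, L - A ≤ t → ee d m S τ l s t ≤ 4 := by
    intro t h1
    have ht0 : 0 ≤ t := by linarith
    have : ∀ σ : ℤ, (σ = 1 ∨ σ = -1) → ‖Ee d m S τ l s σ t‖ ≤ 4 := by
      intro σ hσ
      unfold Ee
      have k1 := Aw_le (ff_norm S τ s) hσ ht0
      have k2 : ‖(l σ : ℂ) * Complex.exp (th d (xi d m) s * t)‖ ≤ 2 * 1 := by
        rw [norm_mul, norm_exp_th, Complex.norm_real, Real.norm_eq_abs]
        refine mul_le_mul (hl0 σ hσ) ?_ (Real.exp_pos _).le (by norm_num)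
        rw [Real.exp_le_one_iff, ← hμd, ← hvd, ← hc]
        have : 0 ≤ c * s ^ 2 * t := by positivity
        linarith
      refine (norm_sub_le _ _).trans ?_
      linarith
    exact max_le (this 1 p1) (this (-1) p2)
  set β := C * |s| / (c * μ) with hβ
  have hβ0 : 0 ≤ β := by positivity
  have hβε : β ≤ ε / 8 := by
    rw [hβ, div_le_iff₀ (by positivity)]
    nlinarith
  have hκ0 : 0 ≤ c * s ^ 2 := by positivity
  have hβκ : β * (c * s ^ 2 * μ) = C * |s| ^ 3 := by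
    rw [hβ]
    have : |s| ^ 3 = |s| * s ^ 2 := by rw [← sq_abs s]; ring
    rw [this]
    field_simp
  have main := sub_bound (by omega : 1 ≤ d) hA0 hAi hμ hdr hK hκ0 hβ0 (e := ee d m S τ l s) (L := L) (U := 4)
    (M := 3 * (ε / 8)) (by linarith) bdd
    (fun t h1 h2 => max_le (zone 1 p1 t h1 h2) (zone (-1) p2 t h1 h2))
    (fun t ht => by
      have ht₀t : t₀ ≤ t := by
        have : 0 ≤ |L1| + |L2| + 8 * (K / μ) / ε := by positivity
        linarith
      rw [hβκ]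
      have : ∀ σ : ℤ, (σ = 1 ∨ σ = -1) → ‖Ee d m S τ l s σ t‖ ≤ (∑ i ∈ range d, ee d m S τ l s (t + xi d m i)) / d +
          K / t ^ 2 + C * |s| ^ 3 * Real.exp (-(c * s ^ 2 * t)) := by
        intro σ hσ
        refine (H s g1 σ hσ t ht₀t).trans ?_
        have hs : ∑ i ∈ range d, ‖Ee d m S τ l s (σ * (m i).sign) (t + xi d m i)‖ ≤
            ∑ i ∈ range d, ee d m S τ l s (t + xi d m i) := by
          refine sum_le_sum fun i hi => le_ee _ _ _ _ ?_ _
          have hm0 := t7_ne h (mem_range.1 hi)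
          rcases hσ with rfl | rfl <;> rcases lt_or_gt_of_ne hm0 with h1 | h1
          · right; rw [Int.sign_eq_neg_one_of_neg h1]; norm_num
          · left; rw [Int.sign_eq_one_of_pos h1]; norm_num
          · left; rw [Int.sign_eq_neg_one_of_neg h1]; norm_num
          · right; rw [Int.sign_eq_one_of_pos h1]; norm_num
        have := div_le_div_of_nonneg_right hs hd0.le
        linarith
      exact max_le (this 1 p1) (this (-1) p2))
  have h1 := main t (by linarith)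
  have h2 := le_ee (d := d) (m := m) S τ l s hσ t
  have h3 : ‖Ee d m S τ l s σ t‖ = ‖Aw (ff S τ s) σ t - l σ * Complex.exp (th d (xi d m) s * t)‖ := rfl
  rw [← h3]
  linarith

end Pool.Agent.K3h45.CT
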