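import Mathlib

/-! Convergence of distribution functions of finite families from the characteristic functions. -/

set_option autoImplicit false

namespace Pool.Agent.K3h45.CT
open Finset Filter Topology MeasureTheory ProbabilityTheory
open scoped ENNReal NNReal

/-- the normal distribution function -/
noncomputable def Phi (y : ℝ) : ℝ := (∫ t in Set.Iic y, Real.exp (-(t ^ 2 / 2))) / Real.sqrt (2 * Real.pi)

theorem Phi_eq (y : ℝ) : ((gaussianReal 0 1) (Set.Iic y)).toReal = Phi y := by
  rw [gaussianReal_apply_eq_integral 0 one_ne_zero, ENNReal.toReal_ofReal]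
  · unfold Phi gaussianPDFReal
    rw [div_eq_inv_mul, ← integral_const_mul]
    refine setIntegral_congr_fun measurableSet_Iic fun t _ => ?_
    simp only [NNReal.coe_one, mul_one, sub_zero]
    congr 2
    ring
  · exact setIntegral_nonneg measurableSet_Iic fun t _ => gaussianPDFReal_nonneg 0 1 t

theorem Phi_nonneg (y : ℝ) : 0 ≤ Phi y := by rw [← Phi_eq]; exact ENNReal.toReal_nonneg

theorem Phi_le_one (y : ℝ) : Phi y ≤ 1 := by
  rw [← Phi_eq]
  exact ENNReal.toReal_le_of_le_ofReal zero_le_one (by rw [ENNReal.ofReal_one]; exact prob_le_one)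

theorem Phi_sub {a b : ℝ} (hab : a ≤ b) : Phi b - Phi a ≤ b - a ∧ 0 ≤ Phi b - Phi a := by
  have hint : Integrable (fun t : ℝ => Real.exp (-(t ^ 2 / 2))) := by
    have := integrable_exp_neg_mul_sq (b := 1 / 2) (by norm_num)
    refine this.congr (Eventually.of_forall fun t => ?_)
    show Real.exp (-(1 / 2) * t ^ 2) = Real.exp (-(t ^ 2 / 2))
    congr 1
    ring
  have e : Phi b - Phi a = (∫ t in a..b, Real.exp (-(t ^ 2 / 2))) / Real.sqrt (2 * Real.pi) := by
    unfold Phi
    rw [← sub_div, intervalIntegral.integral_Iic_sub_Iic hint.integrableOn hint.integrableOn]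
  have hs : 1 ≤ Real.sqrt (2 * Real.pi) := by
    rw [Real.one_le_sqrt]
    have := Real.pi_gt_three
    linarith
  have h0 : 0 ≤ ∫ t in a..b, Real.exp (-(t ^ 2 / 2)) :=
    intervalIntegral.integral_nonneg hab fun t _ => (Real.exp_pos _).le
  have h1 : ∫ t in a..b, Real.exp (-(t ^ 2 / 2)) ≤ b - a := by
    have : ∫ t in a..b, Real.exp (-(t ^ 2 / 2)) ≤ ∫ _t in a..b, (1 : ℝ) := by
      refine intervalIntegral.integral_mono_on hab hint.intervalIntegrable intervalIntegrable_const fun t _ => ?_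
      rw [Real.exp_le_one_iff]
      have := sq_nonneg t
      linarith
    refine this.trans (le_of_eq ?_)
    rw [intervalIntegral.integral_const, smul_eq_mul, mul_one]
  rw [e]
  constructor
  · rw [div_le_iff₀ (by linarith)]
    have : 0 ≤ b - a := by linarith
    nlinarith
  · exact div_nonneg h0 (by linarith)

/-- the distribution of a finite family -/
noncomputable def um (W : Finset ℤ) (Z : ℤ → ℝ) : Measure ℝ :=
  (W.card : ℝ≥0∞)⁻¹ • ∑ x ∈ W, Measure.dirac (Z x)

theorem um_prob {W : Finset ℤ} (hW : W.Nonempty) (Z : ℤ → ℝ) : IsProbabilityMeasure (um W Z) := by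
  refine ⟨?_⟩
  unfold um
  rw [Measure.smul_apply, Measure.finsetSum_apply]
  simp only [measure_univ, sum_const, smul_eq_mul, nsmul_eq_mul, mul_one]
  exact ENNReal.inv_mul_cancel (by simpa using hW.ne_empty) (by simp)

theorem um_char (W : Finset ℤ) (Z : ℤ → ℝ) (u : ℝ) :
    charFun (um W Z) u = (∑ x ∈ W, Complex.exp (Complex.I * ((u * Z x : ℝ) : ℂ))) / W.card := by
  rw [charFun_apply_real]
  unfold um
  rw [integral_smul_measure, integral_finsetSum_measure]
  · rw [ENNReal.toReal_inv, ENNReal.toReal_natCast, Complex.real_smul, div_eq_inv_mul]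
    push_cast
    congr 1
    refine sum_congr rfl fun x _ => ?_
    rw [integral_dirac]
    congr 1
    ring
  · intro x _
    exact integrable_dirac (by simp)

theorem um_Iic {W : Finset ℤ} (Z : ℤ → ℝ) (y : ℝ) :
    (um W Z (Set.Iic y)).toReal = ((W.filter fun x => Z x ≤ y).card : ℝ) / W.card := by
  classical
  unfold um
  rw [Measure.smul_apply, Measure.finsetSum_apply, smul_eq_mul, ENNReal.toReal_mul, ENNReal.toReal_inv,
    ENNReal.toReal_natCast]
  have : ∑ x ∈ W, (Measure.dirac (Z x)) (Set.Iic y) = (((W.filter fun x => Z x ≤ y).card : ℕ) : ℝ≥0∞) := by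
    rw [card_filter]
    push_cast
    refine sum_congr rfl fun x _ => ?_
    rw [Measure.dirac_apply' _ measurableSet_Iic, Set.indicator_apply]
    simp only [Set.mem_Iic, Pi.one_apply]
  rw [this, ENNReal.toReal_natCast]
  ring

theorem levy_seq {W : ℕ → Finset ℤ} {Z : ℕ → ℤ → ℝ} (hW : ∀ n, (W n).Nonempty)
    (h : ∀ u : ℝ, Tendsto (fun n => (∑ x ∈ W n, Complex.exp (Complex.I * ((u * Z n x : ℝ) : ℂ))) / ((W n).card : ℂ))
      atTop (𝓝 (Complex.exp ((-(u ^ 2 / 2) : ℝ) : ℂ)))) (y : ℝ) :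
    Tendsto (fun n => (((W n).filter fun x => Z n x ≤ y).card : ℝ) / (W n).card) atTop (𝓝 (Phi y)) := by
  let ν : ℕ → ProbabilityMeasure ℝ := fun n => ⟨um (W n) (Z n), um_prob (hW n) (Z n)⟩
  let ν₀ : ProbabilityMeasure ℝ := ⟨gaussianReal 0 1, inferInstance⟩
  have hconv : Tendsto ν atTop (𝓝 ν₀) := by
    rw [ProbabilityMeasure.tendsto_iff_tendsto_charFun]
    intro u
    show Tendsto (fun n => charFun (um (W n) (Z n)) u) atTop (𝓝 (charFun (gaussianReal 0 1) u))
    rw [charFun_gaussianReal]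
    simp only [um_char]
    have e : Complex.exp (u * (0 : ℝ) * Complex.I - ((1 : ℝ≥0) : ℝ) * (u : ℂ) ^ 2 / 2) =
        Complex.exp ((-(u ^ 2 / 2) : ℝ) : ℂ) := by
      congr 1
      push_cast
      simp
    rw [e]
    exact h u
  have h1 := ProbabilityMeasure.tendsto_measure_of_null_frontier_of_tendsto' hconv (E := Set.Iic y) (by
    show (gaussianReal 0 1) (frontier (Set.Iic y)) = 0
    rw [frontier_Iic]
    have h0 : NullSingletonClass (gaussianReal 0 1) := nullSingletonClass_gaussianReal one_ne_zero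
    exact h0.measure_singleton y)
  have h2 := (ENNReal.tendsto_toReal (measure_ne_top (gaussianReal 0 1) (Set.Iic y))).comp h1
  have h3 : ((ν₀ : Measure ℝ) (Set.Iic y)).toReal = Phi y := Phi_eq y
  have h4 : Tendsto (fun n => ((ν n : Measure ℝ) (Set.Iic y)).toReal) atTop (𝓝 (Phi y)) := by
    rw [← h3]
    exact h2
  refine h4.congr fun n => ?_
  exact um_Iic (Z n) y

/-- the version with a real parameter -/
theorem levy {W : ℝ → Finset ℤ} {Z : ℝ → ℤ → ℝ} (hW : ∀ᶠ t in atTop, (W t).Nonempty)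
    (h : ∀ u : ℝ, Tendsto (fun t => (∑ x ∈ W t, Complex.exp (Complex.I * ((u * Z t x : ℝ) : ℂ))) / ((W t).card : ℂ))
      atTop (𝓝 (Complex.exp ((-(u ^ 2 / 2) : ℝ) : ℂ)))) (y : ℝ) :
    Tendsto (fun t => (((W t).filter fun x => Z t x ≤ y).card : ℝ) / (W t).card) atTop (𝓝 (Phi y)) := by
  refine tendsto_of_seq_tendsto fun v hv => ?_
  obtain ⟨n₀, hn₀⟩ := Filter.eventually_atTop.1 (hv.eventually hW)
  rw [← tendsto_add_atTop_iff_nat n₀]
  exact levy_seq (W := fun n => W (v (n + n₀))) (Z := fun n => Z (v (n + n₀))) (fun n => hn₀ (n + n₀) (by omega))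
    (fun u => ((h u).comp hv).comp (tendsto_add_atTop_nat n₀)) y

end Pool.Agent.K3h45.CT
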