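import Pool.Agent.K3h45.CT.C12
import Pool.Agent.K3h45.CT.C13

/-! The central limit theorem on the windows. -/

set_option autoImplicit false

namespace Pool.Agent.K3h45.CT
open Pool.Agent.H319R3.GC Pool.Agent.H319R3.DN Finset Filter Topology

variable {d : ℕ} {m r : ℕ → ℤ}

/-- the normalisation -/
noncomputable def qq (d : ℕ) (m : ℕ → ℤ) (t : ℝ) : ℝ := Real.sqrt (vr d (xi d m) * t / mn d (xi d m) ^ 3)

theorem Fw_mono {S S' : Set ℤ} (hSS : S ⊆ S') {σ : ℤ} (hσ : σ = 1 ∨ σ = -1) (t : ℝ) : Fw S σ t ≤ Fw S' σ t := by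
  classical
  unfold Fw
  refine div_le_div_of_nonneg_right ?_ (Real.exp_pos t).le
  rw [nw_card S hσ, nw_card S' hσ]
  exact_mod_cast card_le_card fun x hx => mem_filter.2 ⟨(mem_filter.1 hx).1, hSS (mem_filter.1 hx).2⟩

theorem window_char (h : Adm d m r) {i j : ℕ} (hi : i < d) (hj : j < d)
    (hij : (m i).natAbs ≠ (m j).natAbs) {R : ℝ} (hR : 0 ≤ R) {S : Set ℤ} {τ : ℤ → ℝ} (hS : Tim d m r R S τ)
    {l : ℤ → ℝ} (hl : ∀ σ : ℤ, (σ = 1 ∨ σ = -1) → Tendsto (Fw S σ) atTop (𝓝 (l σ)))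
    (hneg : (∃ i < d, m i < 0) → l 1 = l (-1)) {σ : ℤ} (hσ : σ = 1 ∨ σ = -1) (u : ℝ) :
    Tendsto (fun t : ℝ => Complex.exp (-(Complex.I * ((u / qq d m t * t / mn d (xi d m) : ℝ) : ℂ))) *
      Aw (ff S τ (u / qq d m t)) σ t) atTop (𝓝 ((l σ : ℂ) * Complex.exp ((-(u ^ 2 / 2) : ℝ) : ℂ))) := by
  obtain ⟨hμ, -⟩ := drift_eq h
  have hv := vr_pos h hi hj hij
  set μ := mn d (xi d m) with hμd
  set v := vr d (xi d m) with hvd
  have hq0 : ∀ t : ℝ, 0 < t → 0 < qq d m t := by
    intro t ht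
    unfold qq
    rw [← hμd, ← hvd]
    positivity
  have hqt : Tendsto (fun t : ℝ => qq d m t) atTop atTop := by
    unfold qq
    rw [← hμd, ← hvd]
    refine Real.tendsto_sqrt_atTop.comp ?_
    have : (fun t : ℝ => v * t / μ ^ 3) = fun t => v / μ ^ 3 * t := by ext t; ring
    rw [this]
    exact tendsto_id.const_mul_atTop (by positivity)
  have hst : Tendsto (fun t : ℝ => u / qq d m t) atTop (𝓝 0) := tendsto_const_nhds.div_atTop hqt
  have key : Tendsto (fun t : ℝ => Complex.exp (-(Complex.I * ((u / qq d m t * t / μ : ℝ) : ℂ))) *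
      Aw (ff S τ (u / qq d m t)) σ t - (l σ : ℂ) * Complex.exp ((-(u ^ 2 / 2) : ℝ) : ℂ)) atTop (𝓝 0) := by
    rw [Metric.tendsto_atTop]
    intro ε hε
    obtain ⟨L, s₀, hL, hs₀, H⟩ := comp h hi hj hij hR hS hl hneg (ε := ε / 2) (by positivity)
    obtain ⟨L', hL'⟩ := Metric.tendsto_atTop.1 hst s₀ hs₀
    refine ⟨max L L', fun t ht => ?_⟩
    have h1 := hL' t ((le_max_right _ _).trans ht)
    rw [Real.dist_eq, sub_zero] at h1
    have htL : L ≤ t := (le_max_left _ _).trans ht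
    have ht0 : 0 < t := by linarith
    have h2 := H (u / qq d m t) h1.le σ hσ t htL
    set s := u / qq d m t with hs
    have hs2 : v * s ^ 2 / (2 * μ ^ 3) * t = u ^ 2 / 2 := by
      have hqs : qq d m t ^ 2 = v * t / μ ^ 3 := by
        unfold qq
        rw [← hμd, ← hvd, Real.sq_sqrt (by positivity)]
      rw [hs, div_pow, hqs]
      field_simp
    have e1 : Complex.exp ((-(u ^ 2 / 2) : ℝ) : ℂ) =
        Complex.exp (-(Complex.I * ((s * t / μ : ℝ) : ℂ))) * Complex.exp (th d (xi d m) s * t) := by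
      rw [← Complex.exp_add]
      congr 1
      unfold th
      rw [← hμd, ← hvd, ← hs2]
      push_cast
      have hμC : (μ : ℂ) ≠ 0 := by exact_mod_cast hμ.ne'
      field_simp
      ring
    rw [dist_zero_right, e1]
    have e2 : Complex.exp (-(Complex.I * ((s * t / μ : ℝ) : ℂ))) * Aw (ff S τ s) σ t -
        l σ * (Complex.exp (-(Complex.I * ((s * t / μ : ℝ) : ℂ))) * Complex.exp (th d (xi d m) s * t)) =
        Complex.exp (-(Complex.I * ((s * t / μ : ℝ) : ℂ))) *
          (Aw (ff S τ s) σ t - l σ * Complex.exp (th d (xi d m) s * t)) := by ring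
    have e3 : ‖Complex.exp (-(Complex.I * ((s * t / μ : ℝ) : ℂ)))‖ = 1 := by
      have := norm_exp_I (-(s * t / μ))
      rw [Complex.ofReal_neg, mul_neg] at this
      exact this
    rw [e2, norm_mul, e3, one_mul]
    linarith
  have := key.add_const ((l σ : ℂ) * Complex.exp ((-(u ^ 2 / 2) : ℝ) : ℂ))
  rw [zero_add] at this
  refine this.congr fun t => ?_
  ring

/-- THE CENTRAL LIMIT THEOREM ON THE WINDOWS -/
theorem window_clt (h : Adm d m r) {i j : ℕ} (hi : i < d) (hj : j < d)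
    (hij : (m i).natAbs ≠ (m j).natAbs) {R : ℝ} (hR : 0 ≤ R) {S : Set ℤ} {τ : ℤ → ℝ} (hS : Tim d m r R S τ)
    {l : ℤ → ℝ} (hl : ∀ σ : ℤ, (σ = 1 ∨ σ = -1) → Tendsto (Fw S σ) atTop (𝓝 (l σ)))
    (hneg : (∃ i < d, m i < 0) → l 1 = l (-1)) {σ : ℤ} (hσ : σ = 1 ∨ σ = -1) (y : ℝ) :
    Tendsto (fun t : ℝ => Fw {x | x ∈ S ∧ τ x ≤ t / mn d (xi d m) + y * qq d m t} σ t) atTop
      (𝓝 (l σ * Phi y)) := by
  classical
  have hl0 : 0 ≤ l σ := ge_of_tendsto' (hl σ hσ) fun t => Fw_nonneg S σ t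
  obtain ⟨hμ, -⟩ := drift_eq h
  have hv := vr_pos h hi hj hij
  rcases hl0.eq_or_lt with h0 | h0
  · rw [← h0, zero_mul]
    have h1 := hl σ hσ
    rw [← h0] at h1
    exact squeeze_zero (fun t => Fw_nonneg _ σ t) (fun t => Fw_mono (fun x hx => hx.1) hσ t) h1
  · set W : ℝ → Finset ℤ := fun t => (Wn σ (Real.exp t) (2 * Real.exp t) 1 0).filter fun x => x ∈ S with hW
    have hcard : ∀ t, ((W t).card : ℝ) = Fw S σ t * Real.exp t := by
      intro t
      unfold Fw
      rw [nw_card S hσ, div_mul_cancel₀ _ (Real.exp_pos t).ne']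
    have hpos : ∀ᶠ t in atTop, 0 < Fw S σ t := (hl σ hσ).eventually (lt_mem_nhds h0)
    have hne : ∀ᶠ t in atTop, (W t).Nonempty := by
      filter_upwards [hpos] with t ht
      rw [← Finset.card_pos]
      have : (0 : ℝ) < ((W t).card : ℝ) := by rw [hcard]; exact mul_pos ht (Real.exp_pos t)
      exact_mod_cast this
    set Z : ℝ → ℤ → ℝ := fun t x => (τ x - t / mn d (xi d m)) / qq d m t with hZ
    have hchar : ∀ u : ℝ, Tendsto (fun t => (∑ x ∈ W t, Complex.exp (Complex.I * ((u * Z t x : ℝ) : ℂ))) /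
        ((W t).card : ℂ)) atTop (𝓝 (Complex.exp ((-(u ^ 2 / 2) : ℝ) : ℂ))) := by
      intro u
      have h1 := window_char h hi hj hij hR hS hl hneg hσ u
      have h2 : Tendsto (fun t => ((Fw S σ t : ℝ) : ℂ)) atTop (𝓝 (l σ : ℂ)) :=
        (Complex.continuous_ofReal.tendsto _).comp (hl σ hσ)
      have h3 := h1.div h2 (by exact_mod_cast h0.ne')
      rw [mul_div_cancel_left₀ _ (by exact_mod_cast h0.ne' : (l σ : ℂ) ≠ 0)] at h3
      refine h3.congr' ?_
      filter_upwards [hpos] with t ht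
      have e1 : ∑ x ∈ W t, Complex.exp (Complex.I * ((u * Z t x : ℝ) : ℂ)) =
          Complex.exp (-(Complex.I * ((u / qq d m t * t / mn d (xi d m) : ℝ) : ℂ))) *
            (Aw (ff S τ (u / qq d m t)) σ t * Real.exp t) := by
        unfold Aw ws
        rw [div_mul_cancel₀ _ (by exact_mod_cast (Real.exp_pos t).ne'), mul_sum]
        simp only [hW]
        rw [sum_filter]
        refine sum_congr rfl fun x _ => ?_
        unfold ff
        split_ifs with hx
        · rw [← Complex.exp_add]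
          congr 1
          simp only [hZ]
          push_cast
          ring
        · rw [mul_zero]
      have e2 : ((W t).card : ℂ) = ((Fw S σ t : ℝ) : ℂ) * ((Real.exp t : ℝ) : ℂ) := by
        have := hcard t
        rw [← Complex.ofReal_mul, ← this]
        push_cast
        rfl
      rw [e1, e2]
      have hF : ((Fw S σ t : ℝ) : ℂ) ≠ 0 := by exact_mod_cast ht.ne'
      have hE : ((Real.exp t : ℝ) : ℂ) ≠ 0 := by exact_mod_cast (Real.exp_pos t).ne'
      show _ / ((Fw S σ t : ℝ) : ℂ) = _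
      rw [← mul_assoc, mul_div_mul_right _ _ hE]
    have h1 := levy hne hchar y
    have h2 := (hl σ hσ).mul h1
    refine h2.congr' ?_
    filter_upwards [hpos, Filter.eventually_gt_atTop 0] with t ht ht0
    have hq : 0 < qq d m t := by unfold qq; positivity
    have e1 : nw {x | x ∈ S ∧ τ x ≤ t / mn d (xi d m) + y * qq d m t} σ (Real.exp t) (2 * Real.exp t) 1 0 =
        (((W t).filter fun x => Z t x ≤ y).card : ℝ) := by
      rw [nw_card _ hσ]
      congr 2
      ext x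
      simp only [hW, mem_filter, Set.mem_ofPred_eq, hZ]
      rw [div_le_iff₀ hq, sub_le_iff_le_add, add_comm (y * qq d m t)]
      tauto
    have e2 : Fw {x | x ∈ S ∧ τ x ≤ t / mn d (xi d m) + y * qq d m t} σ t =
        (((W t).filter fun x => Z t x ≤ y).card : ℝ) / Real.exp t := by
      rw [← e1]
      rfl
    rw [e2, hcard]
    have hE := (Real.exp_pos t).ne'
    have hF := ht.ne'
    field_simp

end Pool.Agent.K3h45.CT
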