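import Pool.Agent.K3h45.CT.C14

/-! The central limit theorem on the windows with the normalisation by `log |x|`. -/

set_option autoImplicit false

namespace Pool.Agent.K3h45.CT
open Pool.Agent.H319R3.GC Pool.Agent.H319R3.DN Finset Filter Topology

variable {d : ℕ} {m r : ℕ → ℤ}

/-- the threshold -/
noncomputable def thr (d : ℕ) (m : ℕ → ℤ) (y : ℝ) (w : ℝ) : ℝ := w / mn d (xi d m) + y * qq d m w

/-- the elements of `S` with time below the threshold -/
def Sy (d : ℕ) (m : ℕ → ℤ) (S : Set ℤ) (τ : ℤ → ℝ) (y : ℝ) : Set ℤ :=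
  {x | x ∈ S ∧ τ x ≤ thr d m y (Real.log |(x : ℝ)|)}

theorem Fw_mono_win {S S' : Set ℤ} {σ : ℤ} (hσ : σ = 1 ∨ σ = -1) {t : ℝ}
    (h : ∀ x ∈ Wn σ (Real.exp t) (2 * Real.exp t) 1 0, x ∈ S → x ∈ S') : Fw S σ t ≤ Fw S' σ t := by
  classical
  unfold Fw
  refine div_le_div_of_nonneg_right ?_ (Real.exp_pos t).le
  rw [nw_card S hσ, nw_card S' hσ]
  exact_mod_cast card_le_card fun x hx =>
    mem_filter.2 ⟨(mem_filter.1 hx).1, h x (mem_filter.1 hx).1 (mem_filter.1 hx).2⟩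

theorem log_mem {σ : ℤ} (hσ : σ = 1 ∨ σ = -1) {t : ℝ} {x : ℤ}
    (hx : x ∈ Wn σ (Real.exp t) (2 * Real.exp t) 1 0) : t ≤ Real.log |(x : ℝ)| ∧ Real.log |(x : ℝ)| ≤ t + 1 := by
  have h1 := abs_of_mem hσ (Real.exp_pos t).le hx
  have h2 : 0 < |(x : ℝ)| := lt_of_lt_of_le (Real.exp_pos t) h1.1
  constructor
  · rw [Real.le_log_iff_exp_le h2]; exact h1.1
  · rw [Real.log_le_iff_le_exp h2, Real.exp_add]
    have h3 := Real.add_one_le_exp (1 : ℝ)
    have h4 := Real.exp_pos t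
    have h5 := h1.2.le
    nlinarith

theorem thr_close (hμ : 0 < mn d (xi d m)) (hv : 0 ≤ vr d (xi d m)) (y : ℝ) {t w : ℝ} (ht : 0 ≤ t) (h1 : t ≤ w)
    (h2 : w ≤ t + 1) : |thr d m y w - thr d m y t| ≤ 1 / mn d (xi d m) +
      |y| * Real.sqrt (vr d (xi d m) / mn d (xi d m) ^ 3) := by
  unfold thr qq
  set μ := mn d (xi d m)
  set v := vr d (xi d m)
  have e1 : ∀ t, Real.sqrt (v * t / μ ^ 3) = Real.sqrt (v / μ ^ 3) * Real.sqrt t := by
    intro t
    rw [← Real.sqrt_mul (by positivity)]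
    congr 1
    ring
  rw [e1 w, e1 t]
  have e2 : w / μ + y * (Real.sqrt (v / μ ^ 3) * Real.sqrt w) - (t / μ + y * (Real.sqrt (v / μ ^ 3) * Real.sqrt t)) =
      (w - t) / μ + y * (Real.sqrt (v / μ ^ 3) * (Real.sqrt w - Real.sqrt t)) := by ring
  rw [e2]
  refine (abs_add_le _ _).trans (add_le_add ?_ ?_)
  · rw [abs_of_nonneg (div_nonneg (by linarith) hμ.le)]
    exact div_le_div_of_nonneg_right (by linarith) hμ.le
  · rw [abs_mul, abs_mul, abs_of_nonneg (Real.sqrt_nonneg (v / μ ^ 3))]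
    have h3 : |Real.sqrt w - Real.sqrt t| ≤ 1 := by
      have h4 := Real.sqrt_le_sqrt h1
      rw [abs_of_nonneg (by linarith)]
      have h5 : Real.sqrt w ≤ Real.sqrt t + 1 := by
        rw [Real.sqrt_le_left (by positivity)]
        have := Real.sq_sqrt ht
        have := Real.sqrt_nonneg t
        nlinarith
      linarith
    have h6 := mul_le_mul_of_nonneg_left h3 (Real.sqrt_nonneg (v / μ ^ 3))
    rw [mul_one] at h6
    exact mul_le_mul_of_nonneg_left h6 (abs_nonneg y)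

theorem qq_tendsto (hμ : 0 < mn d (xi d m)) (hv : 0 < vr d (xi d m)) :
    Tendsto (fun t : ℝ => qq d m t) atTop atTop := by
  unfold qq
  refine Real.tendsto_sqrt_atTop.comp ?_
  have : (fun t : ℝ => vr d (xi d m) * t / mn d (xi d m) ^ 3) = fun t => vr d (xi d m) / mn d (xi d m) ^ 3 * t := by
    ext t; ring
  rw [this]
  exact tendsto_id.const_mul_atTop (by positivity)

/-- THE CENTRAL LIMIT THEOREM, normalised by `log |x|` -/
theorem log_clt (h : Adm d m r) {i j : ℕ} (hi : i < d) (hj : j < d)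
    (hij : (m i).natAbs ≠ (m j).natAbs) {R : ℝ} (hR : 0 ≤ R) {S : Set ℤ} {τ : ℤ → ℝ} (hS : Tim d m r R S τ)
    {l : ℤ → ℝ} (hl : ∀ σ : ℤ, (σ = 1 ∨ σ = -1) → Tendsto (Fw S σ) atTop (𝓝 (l σ)))
    (hneg : (∃ i < d, m i < 0) → l 1 = l (-1)) {σ : ℤ} (hσ : σ = 1 ∨ σ = -1) (y : ℝ) :
    Tendsto (Fw (Sy d m S τ y) σ) atTop (𝓝 (l σ * Phi y)) := by
  obtain ⟨hμ, -⟩ := drift_eq h
  have hv := vr_pos h hi hj hij
  have hl0 : 0 ≤ l σ := ge_of_tendsto' (hl σ hσ) fun t => Fw_nonneg S σ t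
  rw [Metric.tendsto_atTop]
  intro ε hε
  set δ := ε / (2 * (l σ + 1)) with hδ
  have hδ0 : 0 < δ := by positivity
  have hδ1 : l σ * δ ≤ ε / 2 := by
    rw [hδ, ← mul_div_assoc, div_le_div_iff₀ (by positivity) (by norm_num)]
    nlinarith
  obtain ⟨L1, H1⟩ := Metric.tendsto_atTop.1 (window_clt h hi hj hij hR hS hl hneg hσ (y - δ)) (ε / 2) (by positivity)
  obtain ⟨L2, H2⟩ := Metric.tendsto_atTop.1 (window_clt h hi hj hij hR hS hl hneg hσ (y + δ)) (ε / 2) (by positivity)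
  set Cst := 1 / mn d (xi d m) + |y| * Real.sqrt (vr d (xi d m) / mn d (xi d m) ^ 3) with hC
  obtain ⟨L3, H3⟩ := Filter.eventually_atTop.1 ((qq_tendsto hμ hv).eventually_ge_atTop (Cst / δ))
  refine ⟨max 0 (max L1 (max L2 L3)), fun t ht => ?_⟩
  have ht0 : 0 ≤ t := (le_max_left _ _).trans ht
  have ht' := (le_max_right _ _).trans ht
  have ht1 : L1 ≤ t := (le_max_left _ _).trans ht'
  have ht'' := (le_max_right _ _).trans ht'
  have ht2 : L2 ≤ t := (le_max_left _ _).trans ht''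
  have ht3 : L3 ≤ t := (le_max_right _ _).trans ht''
  have h1 := H1 t ht1
  have h2 := H2 t ht2
  have h3 := H3 t ht3
  rw [div_le_iff₀ hδ0] at h3
  rw [Real.dist_eq, abs_lt] at h1 h2 ⊢
  have hlow : Fw {x | x ∈ S ∧ τ x ≤ t / mn d (xi d m) + (y - δ) * qq d m t} σ t ≤ Fw (Sy d m S τ y) σ t := by
    refine Fw_mono_win hσ fun x hx hxS => ⟨hxS.1, hxS.2.trans ?_⟩
    have h4 := log_mem hσ hx
    have h5 := (abs_le.1 (thr_close hμ hv.le y ht0 h4.1 h4.2)).1
    have h6 : thr d m y t = t / mn d (xi d m) + y * qq d m t := rfl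
    rw [h6] at h5
    linarith
  have hup : Fw (Sy d m S τ y) σ t ≤ Fw {x | x ∈ S ∧ τ x ≤ t / mn d (xi d m) + (y + δ) * qq d m t} σ t := by
    refine Fw_mono_win hσ fun x hx hxS => ⟨hxS.1, hxS.2.trans ?_⟩
    have h4 := log_mem hσ hx
    have h5 := (abs_le.1 (thr_close hμ hv.le y ht0 h4.1 h4.2)).2
    have h6 : thr d m y t = t / mn d (xi d m) + y * qq d m t := rfl
    rw [h6] at h5
    linarith
  have p1 := Phi_sub (a := y - δ) (b := y) (by linarith)
  have p2 := Phi_sub (a := y) (b := y + δ) (by linarith)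
  have q1 : l σ * Phi y - ε / 2 ≤ l σ * Phi (y - δ) := by
    have : l σ * (Phi y - Phi (y - δ)) ≤ l σ * δ := mul_le_mul_of_nonneg_left (by linarith [p1.1]) hl0
    linarith
  have q2 : l σ * Phi (y + δ) ≤ l σ * Phi y + ε / 2 := by
    have : l σ * (Phi (y + δ) - Phi y) ≤ l σ * δ := mul_le_mul_of_nonneg_left (by linarith [p2.1]) hl0
    linarith
  constructor
  · linarith [h1.1]
  · linarith [h2.2]

end Pool.Agent.K3h45.CT
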