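import Pool.Agent.K3h45.CT.C15
import Pool.Agent.H319R3.GC.Main

/-! Hitting times of finite sets and of the set of all periodic points. -/

set_option autoImplicit false

namespace Pool.Agent.K3h45.CT
open Pool.Agent.H319R3.GC Pool.Agent.H319R3.DN Finset Filter Topology
open Pool.Agent.H319R3.DN.T12

variable {d : ℕ} {m r : ℕ → ℤ}

/-- the integers whose trajectory meets `F` -/
def hit (d : ℕ) (m r : ℕ → ℤ) (F : Set ℤ) : Set ℤ := {x | ∃ n : ℕ, (Tm d m r)^[n] x ∈ F}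

open Classical in
/-- the first time in `F` -/
noncomputable def fst (d : ℕ) (m r : ℕ → ℤ) (F : Set ℤ) (x : ℤ) : ℝ :=
  if h : ∃ n : ℕ, (Tm d m r)^[n] x ∈ F then (Nat.find h : ℝ) else 0

theorem fst_eq {F : Set ℤ} {x : ℤ} {n : ℕ} (h1 : (Tm d m r)^[n] x ∈ F) (h2 : ∀ k < n, (Tm d m r)^[k] x ∉ F) :
    fst d m r F x = n := by
  classical
  have h : ∃ n : ℕ, (Tm d m r)^[n] x ∈ F := ⟨n, h1⟩
  unfold fst
  rw [dif_pos h]
  congr 1
  rw [Nat.find_eq_iff]
  exact ⟨h1, h2⟩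

theorem exists_first {F : Set ℤ} {x : ℤ} (h : x ∈ hit d m r F) :
    ∃ n : ℕ, (Tm d m r)^[n] x ∈ F ∧ ∀ k < n, (Tm d m r)^[k] x ∉ F := by
  classical
  have h' : ∃ n : ℕ, (Tm d m r)^[n] x ∈ F := h
  exact ⟨Nat.find h', Nat.find_spec h', fun k hk => Nat.find_min h' hk⟩

theorem hit_iff {F : Set ℤ} {x : ℤ} (hx : x ∉ F) : x ∈ hit d m r F ↔ Tm d m r x ∈ hit d m r F := by
  constructor
  · rintro ⟨n, hn⟩
    cases n with
    | zero => exact absurd hn hx
    | succ n => exact ⟨n, by rwa [Function.iterate_succ_apply] at hn⟩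
  · rintro ⟨n, hn⟩
    exact ⟨n + 1, by rwa [Function.iterate_succ_apply]⟩

theorem fst_succ {F : Set ℤ} {x : ℤ} (hx : x ∉ F) (h : x ∈ hit d m r F) :
    fst d m r F x = fst d m r F (Tm d m r x) + 1 := by
  obtain ⟨n, h1, h2⟩ := exists_first h
  cases n with
  | zero => exact absurd h1 hx
  | succ n =>
    rw [fst_eq h1 h2, fst_eq (n := n) (by rwa [Function.iterate_succ_apply] at h1)
      (fun k hk => by rw [← Function.iterate_succ_apply]; exact h2 (k + 1) (by omega))]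
    push_cast
    ring

theorem tim_of_fin {F : Set ℤ} (hF : F.Finite) :
    ∃ R : ℝ, 0 ≤ R ∧ Tim d m r R (hit d m r F) (fst d m r F) := by
  refine ⟨∑ x ∈ hF.toFinset, |(x : ℝ)|, sum_nonneg fun _ _ => abs_nonneg _, ?_, ?_⟩
  · intro x hx
    refine hit_iff fun hxF => ?_
    have := single_le_sum (f := fun x : ℤ => |(x : ℝ)|) (fun _ _ => abs_nonneg _) (hF.mem_toFinset.2 hxF)
    linarith
  · intro x hx hxS
    refine fst_succ (fun hxF => ?_) hxS
    have := single_le_sum (f := fun x : ℤ => |(x : ℝ)|) (fun _ _ => abs_nonneg _) (hF.mem_toFinset.2 hxF)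
    linarith

/-- the central limit theorem for the hitting times of a set, in terms of the windows -/
def CLT (d : ℕ) (m r : ℕ → ℤ) (F : Set ℤ) : Prop := ∀ σ : ℤ, (σ = 1 ∨ σ = -1) → ∃ l : ℝ, 0 ≤ l ∧ l ≤ 1 ∧
  Tendsto (Fw (hit d m r F) σ) atTop (𝓝 l) ∧
  ∀ y : ℝ, Tendsto (Fw (Sy d m (hit d m r F) (fst d m r F) y) σ) atTop (𝓝 (l * Phi y))

theorem Fw_le_one (S : Set ℤ) {σ : ℤ} (hσ : σ = 1 ∨ σ = -1) {l : ℝ} (hl : Tendsto (Fw S σ) atTop (𝓝 l)) : l ≤ 1 := by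
  have h1 : Tendsto (fun t : ℝ => 1 + Real.exp (-t)) atTop (𝓝 (1 + 0)) :=
    tendsto_const_nhds.add Real.tendsto_exp_neg_atTop_nhds_zero
  rw [add_zero] at h1
  refine le_of_tendsto_of_tendsto' hl h1 fun t => ?_
  have he := Real.exp_pos t
  rw [Fw_eq S hσ, div_le_iff₀ he, add_mul, one_mul, ← Real.exp_add, neg_add_cancel, Real.exp_zero]
  have := G_diff_le S hσ he (by linarith : Real.exp t ≤ 2 * Real.exp t)
  linarith

theorem clt_fin (h : Adm d m r) {i j : ℕ} (hi : i < d) (hj : j < d)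
    (hij : (m i).natAbs ≠ (m j).natAbs) {F : Set ℤ} (hF : F.Finite) : CLT d m r F := by
  obtain ⟨R, hR, hS⟩ := tim_of_fin (d := d) (m := m) (r := r) hF
  obtain ⟨l, hl, hneg⟩ := limits h hi hj hij hR hS
  intro σ hσ
  exact ⟨l σ, ge_of_tendsto' (hl σ hσ) fun t => Fw_nonneg _ σ t, Fw_le_one _ hσ (hl σ hσ), hl σ hσ,
    fun y => log_clt h hi hj hij hR hS hl hneg hσ y⟩

end Pool.Agent.K3h45.CT
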