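import Pool.Agent.K3h45.CT.C16

/-! Sets with only finitely many elements which are not periodic. -/

set_option autoImplicit false

namespace Pool.Agent.K3h45.CT
open Pool.Agent.H319R3.GC Pool.Agent.H319R3.DN Finset Filter Topology

variable {d : ℕ} {m r : ℕ → ℤ}

/-- the limits for eventually invariant sets -/
theorem limits_inv (h : Adm d m r) {i j : ℕ} (hi : i < d) (hj : j < d)
    (hij : (m i).natAbs ≠ (m j).natAbs) {R : ℝ} (hR : 0 ≤ R) {S : Set ℤ}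
    (hS : ∀ x : ℤ, R < |(x : ℝ)| → (x ∈ S ↔ Tm d m r x ∈ S)) :
    ∃ l : ℤ → ℝ, (∀ σ : ℤ, (σ = 1 ∨ σ = -1) → Tendsto (Fw S σ) atTop (𝓝 (l σ))) ∧
      ((∃ i < d, m i < 0) → l 1 = l (-1)) := by
  classical
  obtain ⟨K, hK, H⟩ := harm_e h
  obtain ⟨t₀, ht₀, H⟩ := H R hR
  have hE : Eig d m r R (Complex.exp (Complex.I * ((0 : ℝ) : ℂ))) (ff S (fun _ => 0) 0) := by
    refine ⟨ff_norm S _ 0, norm_exp_I 0, fun x hx => ?_⟩
    unfold ff
    by_cases h : x ∈ S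
    · rw [if_pos h, if_pos ((hS x hx).1 h), ← Complex.exp_add]
      simp
    · rw [if_neg h, if_neg (fun h' => h ((hS x hx).2 h')), mul_zero]
  refine limF h hi hj hij ht₀ (K := K) fun σ hσ t ht => ?_
  have h1 := H _ _ hE σ hσ t ht
  have hτ : ∀ i ∈ range d, σ * (m i).sign = 1 ∨ σ * (m i).sign = -1 := by
    intro i hi
    have hm0 := t7_ne h (mem_range.1 hi)
    rcases hσ with rfl | rfl <;> rcases lt_or_gt_of_ne hm0 with h1 | h1
    · right; rw [Int.sign_eq_neg_one_of_neg h1]; norm_num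
    · left; rw [Int.sign_eq_one_of_pos h1]; norm_num
    · left; rw [Int.sign_eq_neg_one_of_neg h1]; norm_num
    · right; rw [Int.sign_eq_one_of_pos h1]; norm_num
  rw [Aw_zero S _ hσ, sum_congr rfl (fun i hi => Aw_zero S _ (hτ i hi) _)] at h1
  have e : ((Fw S σ t : ℝ) : ℂ) - Complex.exp (Complex.I * ((0 : ℝ) : ℂ)) *
      (∑ i ∈ range d, ((Fw S (σ * (m i).sign) (t + Real.log (|(m i : ℝ)| / d)) : ℝ) : ℂ)) / d =
      (((Fw S σ t - (∑ i ∈ range d, Fw S (σ * (m i).sign) (t + Real.log (|(m i : ℝ)| / d))) / d) : ℝ) : ℂ) := by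
    push_cast
    rw [mul_zero, Complex.exp_zero, one_mul]
  rw [e, Complex.norm_real, Real.norm_eq_abs] at h1
  exact h1

theorem Fw_sub_add {S S' S'' : Set ℤ} (hSS : ∀ x ∈ S, x ∈ S' ∨ x ∈ S'') {σ : ℤ} (hσ : σ = 1 ∨ σ = -1) (t : ℝ) :
    Fw S σ t ≤ Fw S' σ t + Fw S'' σ t := by
  classical
  unfold Fw
  rw [← add_div]
  refine div_le_div_of_nonneg_right ?_ (Real.exp_pos t).le
  rw [nw_card S hσ, nw_card S' hσ, nw_card S'' hσ]
  have h1 : (Wn σ (Real.exp t) (2 * Real.exp t) 1 0).filter (fun x => x ∈ S) ⊆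
      (Wn σ (Real.exp t) (2 * Real.exp t) 1 0).filter (fun x => x ∈ S') ∪
      (Wn σ (Real.exp t) (2 * Real.exp t) 1 0).filter (fun x => x ∈ S'') := by
    intro x hx
    rw [mem_filter] at hx
    rw [mem_union, mem_filter, mem_filter]
    rcases hSS x hx.2 with h2 | h2
    · exact Or.inl ⟨hx.1, h2⟩
    · exact Or.inr ⟨hx.1, h2⟩
  exact_mod_cast (card_le_card h1).trans (card_union_le _ _)

/-- the part of the trajectories which never come down -/
theorem Fw_tail (h : Adm d m r) (B : ℕ) : ∃ C : ℝ, 0 < C ∧ ∀ k : ℝ, 2 ≤ k → ∀ S : Set ℤ,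
    (∀ x ∈ S, ∀ n : ℕ, k < |(((Tm d m r)^[n] x : ℤ) : ℝ)|) → ∀ σ : ℤ, (σ = 1 ∨ σ = -1) → ∀ t : ℝ, 0 ≤ t →
      Fw S σ t ≤ C / Real.log k ^ B := by
  classical
  obtain ⟨C, hC, H⟩ := main h B
  refine ⟨2 * C, by positivity, fun k hk S hS σ hσ t ht => ?_⟩
  have he := Real.exp_pos t
  have he1 := Real.one_le_exp ht
  have hlog : 0 < Real.log k := Real.log_pos (by linarith)
  unfold Fw
  rw [div_le_iff₀ he, nw_card S hσ]
  have h1 := H (2 * Real.exp t) k (by linarith) hk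
  have hfin : {x : ℤ | |(x : ℝ)| ≤ 2 * Real.exp t ∧ ∀ n : ℕ, k < |(((Tm d m r)^[n] x : ℤ) : ℝ)|}.Finite := by
    refine (Set.finite_Icc (-⌊2 * Real.exp t⌋) ⌊2 * Real.exp t⌋).subset ?_
    rintro x ⟨hx, -⟩
    have h2 : |x| ≤ ⌊2 * Real.exp t⌋ := by
      rw [Int.le_floor]
      push_cast
      exact hx
    exact Set.mem_Icc.2 (abs_le.1 h2)
  have hsub : (((Wn σ (Real.exp t) (2 * Real.exp t) 1 0).filter fun x => x ∈ S : Finset ℤ) : Set ℤ) ⊆
      {x : ℤ | |(x : ℝ)| ≤ 2 * Real.exp t ∧ ∀ n : ℕ, k < |(((Tm d m r)^[n] x : ℤ) : ℝ)|} := by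
    intro x hx
    rw [Finset.mem_coe, mem_filter] at hx
    exact ⟨(abs_of_mem hσ he.le hx.1).2.le, hS x hx.2⟩
  have h2 := Set.ncard_le_ncard hsub hfin
  rw [Set.ncard_coe_finset] at h2
  have h3 : ((((Wn σ (Real.exp t) (2 * Real.exp t) 1 0).filter fun x => x ∈ S).card : ℕ) : ℝ) ≤
      ({x : ℤ | |(x : ℝ)| ≤ 2 * Real.exp t ∧ ∀ n : ℕ, k < |(((Tm d m r)^[n] x : ℤ) : ℝ)|}.ncard : ℝ) := by
    exact_mod_cast h2
  refine h3.trans (h1.trans (le_of_eq ?_))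
  ring

/-- the orbits of periodic points are finite -/
theorem per_fin (f : ℤ → ℤ) (x : ℤ) : {z | z ∈ Function.periodicPts f ∧ ∃ n : ℕ, f^[n] x = z}.Finite := by
  by_cases h : ∃ n : ℕ, f^[n] x ∈ Function.periodicPts f
  · obtain ⟨n, hn⟩ := h
    obtain ⟨p, hp, hpp⟩ := Function.mem_periodicPts.1 hn
    refine ((Set.finite_Iio (n + p)).image fun j => f^[j] x).subset ?_
    rintro z ⟨-, k, rfl⟩
    rcases lt_or_ge k n with hk | hk
    · exact ⟨k, Set.mem_Iio.2 (by omega), rfl⟩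
    · refine ⟨n + (k - n) % p, Set.mem_Iio.2 (by have := Nat.mod_lt (k - n) hp; omega), ?_⟩
      show f^[n + (k - n) % p] x = f^[k] x
      have h1 : k = (k - n) + n := by omega
      conv_rhs => rw [h1, Function.iterate_add_apply]
      rw [add_comm n, Function.iterate_add_apply]
      exact hpp.iterate_mod_apply (k - n)
  · refine Set.finite_empty.subset ?_
    rintro z ⟨hz, n, rfl⟩
    exact h ⟨n, hz⟩

/-- from a periodic point one gets back -/
theorem per_back {f : ℤ → ℤ} {y : ℤ} (hy : y ∈ Function.periodicPts f) (n : ℕ) : ∃ q : ℕ, f^[q] (f^[n] y) = y := by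
  obtain ⟨p, hp, hpp⟩ := Function.mem_periodicPts.1 hy
  have hp' : 0 < p := hp
  refine ⟨n * p - n, ?_⟩
  rw [← Function.iterate_add_apply]
  have h1 : n * p - n + n = n * p := Nat.sub_add_cancel (Nat.le_mul_of_pos_right n hp')
  rw [h1]
  exact hpp.const_mul n

end Pool.Agent.K3h45.CT
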