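import Pool.Agent.K3h45.CT.C17

/-! The central limit theorem for the hitting times of sets with only finitely many elements which are not
periodic. -/

set_option autoImplicit false

namespace Pool.Agent.K3h45.CT
open Pool.Agent.H319R3.GC Pool.Agent.H319R3.DN Finset Filter Topology

variable {d : ℕ} {m r : ℕ → ℤ}

/-- the elements of `F` which are not periodic, and those which are reached from these or from `[-k, k]` -/
def Fk (d : ℕ) (m r : ℕ → ℤ) (F : Set ℤ) (k : ℕ) : Set ℤ :=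
  {z | z ∈ F ∧ (z ∉ Function.periodicPts (Tm d m r) ∨
    ∃ x : ℤ, (|x| ≤ k ∨ (x ∈ F ∧ x ∉ Function.periodicPts (Tm d m r))) ∧ ∃ n : ℕ, (Tm d m r)^[n] x = z)}

theorem Fk_fin {F : Set ℤ} (hF : {x | x ∈ F ∧ x ∉ Function.periodicPts (Tm d m r)}.Finite) (k : ℕ) :
    (Fk d m r F k).Finite := by
  have hB : ((Set.Icc (-(k : ℤ)) k) ∪ {x | x ∈ F ∧ x ∉ Function.periodicPts (Tm d m r)}).Finite :=
    (Set.finite_Icc _ _).union hF
  refine (hF.union (hB.biUnion fun x _ => per_fin (Tm d m r) x)).subset ?_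
  rintro z ⟨hz, h⟩
  by_cases hp : z ∈ Function.periodicPts (Tm d m r)
  · right
    rcases h with h | ⟨x, hx, n, hn⟩
    · exact absurd hp h
    · rw [Set.mem_iUnion₂]
      refine ⟨x, ?_, hp, n, hn⟩
      rcases hx with hx | hx
      · exact Or.inl (Set.mem_Icc.2 (abs_le.1 hx))
      · exact Or.inr hx
  · exact Or.inl ⟨hz, hp⟩

theorem Fk_sub (F : Set ℤ) (k : ℕ) : Fk d m r F k ⊆ F := fun _ h => h.1

/-- the rest never comes down to `[-k, k]` -/
theorem rest_up {F : Set ℤ} {k : ℕ} {x : ℤ} (hx : x ∈ hit d m r F) (hx' : x ∉ hit d m r (Fk d m r F k)) (j : ℕ) :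
    (k : ℝ) < |(((Tm d m r)^[j] x : ℤ) : ℝ)| := by
  by_contra hcon
  push Not at hcon
  have hj : |(Tm d m r)^[j] x| ≤ (k : ℤ) := by exact_mod_cast hcon
  apply hx'
  obtain ⟨n, hn⟩ := hx
  refine ⟨n, hn, ?_⟩
  by_cases hp : (Tm d m r)^[n] x ∈ Function.periodicPts (Tm d m r)
  · right
    refine ⟨(Tm d m r)^[j] x, Or.inl hj, ?_⟩
    rcases le_total j n with h | h
    · refine ⟨n - j, ?_⟩
      rw [← Function.iterate_add_apply, Nat.sub_add_cancel h]
    · obtain ⟨q, hq⟩ := per_back hp (j - n)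
      refine ⟨q, ?_⟩
      rw [← Function.iterate_add_apply _ (j - n), Nat.sub_add_cancel h] at hq
      exact hq
  · exact Or.inl hp

/-- the hitting times agree -/
theorem fst_same {F : Set ℤ} {k : ℕ} {x : ℤ} (hx : x ∈ hit d m r (Fk d m r F k)) :
    fst d m r F x = fst d m r (Fk d m r F k) x := by
  obtain ⟨n, hn⟩ := hx
  have hxF : x ∈ hit d m r F := ⟨n, hn.1⟩
  obtain ⟨j, h1, h2⟩ := exists_first hxF
  have hjn : j ≤ n := by
    by_contra hcon
    exact h2 n (by omega) hn.1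
  rw [fst_eq h1 h2, fst_eq (n := j) ?_ fun i hi hi' => h2 i hi hi'.1]
  refine ⟨h1, ?_⟩
  by_cases hp : (Tm d m r)^[j] x ∈ Function.periodicPts (Tm d m r)
  · right
    obtain ⟨q, hq⟩ := per_back hp (n - j)
    rw [← Function.iterate_add_apply _ (n - j), Nat.sub_add_cancel hjn] at hq
    rcases hn.2 with hn2 | ⟨z, hz, i, hi⟩
    · exact ⟨(Tm d m r)^[n] x, Or.inr ⟨hn.1, hn2⟩, q, hq⟩
    · refine ⟨z, hz, q + i, ?_⟩
      rw [Function.iterate_add_apply, hi]
      exact hq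
  · exact Or.inl hp

/-- THE MAIN THEOREM in terms of the windows -/
theorem clt_per (h : Adm d m r) {i j : ℕ} (hi : i < d) (hj : j < d)
    (hij : (m i).natAbs ≠ (m j).natAbs) {F : Set ℤ}
    (hF : {x | x ∈ F ∧ x ∉ Function.periodicPts (Tm d m r)}.Finite) : CLT d m r F := by
  classical
  -- the set of the integers which hit `F` is eventually invariant
  have hlim : ∃ l : ℤ → ℝ, (∀ σ : ℤ, (σ = 1 ∨ σ = -1) → Tendsto (Fw (hit d m r F) σ) atTop (𝓝 (l σ))) ∧
      ((∃ i < d, m i < 0) → l 1 = l (-1)) := by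
    refine limits_inv h hi hj hij (R := ∑ x ∈ hF.toFinset, |(x : ℝ)|) (sum_nonneg fun _ _ => abs_nonneg _)
      fun x hx => ?_
    by_cases hxF : x ∈ F
    · by_cases hxp : x ∈ Function.periodicPts (Tm d m r)
      · refine ⟨fun _ => ?_, fun _ => ⟨0, hxF⟩⟩
        obtain ⟨q, hq⟩ := per_back hxp 1
        rw [Function.iterate_one] at hq
        exact ⟨q, by rw [hq]; exact hxF⟩
      · exfalso
        have := single_le_sum (f := fun x : ℤ => |(x : ℝ)|) (fun _ _ => abs_nonneg _)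
          (hF.mem_toFinset.2 ⟨hxF, hxp⟩)
        linarith
    · exact hit_iff hxF
  obtain ⟨l, hl, -⟩ := hlim
  obtain ⟨C, hC, HC⟩ := Fw_tail h 1
  intro σ hσ
  refine ⟨l σ, ge_of_tendsto' (hl σ hσ) fun t => Fw_nonneg _ σ t, Fw_le_one _ hσ (hl σ hσ), hl σ hσ, fun y => ?_⟩
  rw [Metric.tendsto_atTop]
  intro ε hε
  -- the level
  obtain ⟨k, hk⟩ := exists_nat_gt (max 2 (Real.exp (C / (ε / 4))))
  have hk2 : (2 : ℝ) ≤ k := (le_max_left _ _).trans hk.le
  have hklog : C / Real.log k ^ 1 ≤ ε / 4 := by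
    have h1 : C / (ε / 4) ≤ Real.log k := by
      rw [Real.le_log_iff_exp_le (by linarith)]
      exact (le_max_right _ _).trans hk.le
    have h2 : 0 < Real.log k := Real.log_pos (by linarith)
    rw [pow_one, div_le_iff₀ h2]
    rw [div_le_iff₀ (by positivity)] at h1
    linarith
  obtain ⟨l', hl'0, hl'1, hl', hl'y⟩ := clt_fin h hi hj hij (Fk_fin hF k) σ hσ
  have hsub : hit d m r (Fk d m r F k) ⊆ hit d m r F := fun x ⟨n, hn⟩ => ⟨n, hn.1⟩
  set S := hit d m r F with hS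
  set S' := hit d m r (Fk d m r F k) with hS'
  set D : Set ℤ := {x | x ∈ S ∧ x ∉ S'} with hD
  have hDs : ∀ t, 0 ≤ t → Fw D σ t ≤ ε / 4 := fun t ht =>
    (HC k hk2 D (fun x hx n => rest_up hx.1 hx.2 n) σ hσ t ht).trans hklog
  have hll : |l' - l σ| ≤ ε / 4 := by
    have h1 : Tendsto (fun t => |Fw S' σ t - Fw S σ t|) atTop (𝓝 |l' - l σ|) := (hl'.sub (hl σ hσ)).abs
    refine le_of_tendsto h1 ?_
    filter_upwards [Filter.eventually_ge_atTop 0] with t ht
    have h2 := Fw_mono (σ := σ) hsub hσ t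
    have h3 := Fw_sub_add (S := S) (S' := S') (S'' := D) (fun x hx => by
      by_cases hx' : x ∈ S'
      · exact Or.inl hx'
      · exact Or.inr ⟨hx, hx'⟩) hσ t
    have h4 := hDs t ht
    rw [abs_le]
    constructor <;> linarith
  obtain ⟨T, hT⟩ := Metric.tendsto_atTop.1 (hl'y y) (ε / 4) (by positivity)
  refine ⟨max T 0, fun t ht => ?_⟩
  have ht0 : 0 ≤ t := (le_max_right _ _).trans ht
  have h1 := hT t ((le_max_left _ _).trans ht)
  rw [Real.dist_eq, abs_lt] at h1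
  have h2 : Fw (Sy d m S' (fst d m r (Fk d m r F k)) y) σ t ≤ Fw (Sy d m S (fst d m r F) y) σ t := by
    have hs : Sy d m S' (fst d m r (Fk d m r F k)) y ⊆ Sy d m S (fst d m r F) y := by
      intro x hx
      refine ⟨hsub hx.1, ?_⟩
      rw [fst_same hx.1]
      exact hx.2
    exact Fw_mono hs hσ t
  have h3 : Fw (Sy d m S (fst d m r F) y) σ t ≤ Fw (Sy d m S' (fst d m r (Fk d m r F k)) y) σ t + Fw D σ t := by
    refine Fw_sub_add (fun x hx => ?_) hσ t
    by_cases hx' : x ∈ S'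
    · left
      refine ⟨hx', ?_⟩
      rw [← fst_same hx']
      exact hx.2
    · exact Or.inr ⟨hx.1, hx'⟩
  have h4 := hDs t ht0
  have h5 : |l' * Phi y - l σ * Phi y| ≤ ε / 4 := by
    rw [← sub_mul, abs_mul, abs_of_nonneg (Phi_nonneg y)]
    have h6 := Phi_le_one y
    have h7 := Phi_nonneg y
    have h8 := abs_nonneg (l' - l σ)
    nlinarith
  rw [abs_le] at h5
  rw [Real.dist_eq, abs_lt]
  constructor <;> linarith [h1.1, h1.2, h5.1, h5.2]

end Pool.Agent.K3h45.CT
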