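import Pool.Agent.K3h45.CT.C18

/-! The windows of all integers. -/

set_option autoImplicit false

namespace Pool.Agent.K3h45.CT
open Pool.Agent.H319R3.GC Pool.Agent.H319R3.DN Finset Filter Topology
open Pool.Agent.H319R3.DN.T12

theorem Fw_univ {σ : ℤ} (hσ : σ = 1 ∨ σ = -1) (t : ℝ) :
    1 - Real.exp (-t) ≤ Fw Set.univ σ t ∧ Fw Set.univ σ t ≤ 1 + Real.exp (-t) := by
  classical
  have he := Real.exp_pos t
  have h1 : nw Set.univ σ (Real.exp t) (2 * Real.exp t) 1 0 = ((⌈2 * Real.exp t⌉ - ⌈Real.exp t⌉ : ℤ) : ℝ) := by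
    rw [nw_card _ hσ]
    have h2 : (Wn σ (Real.exp t) (2 * Real.exp t) 1 0).filter (fun x => x ∈ Set.univ) =
        (Finset.Ico ⌈Real.exp t⌉ ⌈2 * Real.exp t⌉).image fun x => σ * x := by
      ext x
      rw [mem_filter]
      unfold Wn
      rw [mem_filter]
      constructor
      · exact fun h => h.1.1
      · exact fun h => ⟨⟨h, by simp⟩, Set.mem_univ x⟩
    rw [h2, card_image_of_injOn, Int.card_Ico]
    · have h3 : ⌈Real.exp t⌉ ≤ ⌈2 * Real.exp t⌉ := Int.ceil_le_ceil (by linarith)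
      have h4 : (((⌈2 * Real.exp t⌉ - ⌈Real.exp t⌉).toNat : ℕ) : ℤ) = ⌈2 * Real.exp t⌉ - ⌈Real.exp t⌉ :=
        Int.toNat_of_nonneg (by omega)
      exact_mod_cast h4
    · intro x _ y _ hxy
      have hxy' : σ * x = σ * y := hxy
      rcases hσ with rfl | rfl <;> omega
  unfold Fw
  rw [h1, le_div_iff₀ he, div_le_iff₀ he, sub_mul, add_mul, one_mul, ← Real.exp_add, neg_add_cancel, Real.exp_zero]
  have a1 := Int.le_ceil (Real.exp t)
  have a2 := Int.ceil_lt_add_one (Real.exp t)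
  have b1 := Int.le_ceil (2 * Real.exp t)
  have b2 := Int.ceil_lt_add_one (2 * Real.exp t)
  push_cast
  constructor <;> linarith

end Pool.Agent.K3h45.CT
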