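import Pool.Agent.H319R3.DN.T6a
import Pool.Agent.K3h45.CT.C2

/-! Sums of complex functions over windows. -/

set_option autoImplicit false

namespace Pool.Agent.K3h45.CT
open Pool.Agent.H319R3.GC Pool.Agent.H319R3.DN Finset

variable {d : ℕ} {m r : ℕ → ℤ}

/-- the integers `x` with `a ≤ σ x < b` in the class of `c` mod `Q` -/
noncomputable def Wn (σ : ℤ) (a b : ℝ) (Q : ℕ) (c : ℤ) : Finset ℤ :=
  ((Finset.Ico ⌈a⌉ ⌈b⌉).image fun x => σ * x).filter fun x => (Q : ℤ) ∣ x - c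

theorem mem_Wn {σ : ℤ} (hσ : σ = 1 ∨ σ = -1) {a b : ℝ} {Q : ℕ} {c x : ℤ} :
    x ∈ Wn σ a b Q c ↔ a ≤ ((σ * x : ℤ) : ℝ) ∧ ((σ * x : ℤ) : ℝ) < b ∧ (Q : ℤ) ∣ x - c := by
  have hσσ : σ * σ = 1 := by rcases hσ with rfl | rfl <;> norm_num
  unfold Wn
  rw [mem_filter, mem_image]
  constructor
  · rintro ⟨⟨y, hy, rfl⟩, h⟩
    rw [mem_Ico, Int.ceil_le, Int.lt_ceil] at hy
    rw [← mul_assoc, hσσ, one_mul]
    exact ⟨hy.1, hy.2, h⟩
  · rintro ⟨h1, h2, h3⟩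
    refine ⟨⟨σ * x, ?_, by rw [← mul_assoc, hσσ, one_mul]⟩, h3⟩
    rw [mem_Ico, Int.ceil_le, Int.lt_ceil]
    exact ⟨h1, h2⟩

/-- the sum of `f` over a window -/
noncomputable def ws (f : ℤ → ℂ) (σ : ℤ) (a b : ℝ) (Q : ℕ) (c : ℤ) : ℂ := ∑ x ∈ Wn σ a b Q c, f x

theorem nw_card (S : Set ℤ) [DecidablePred fun x => x ∈ S] {σ : ℤ} (hσ : σ = 1 ∨ σ = -1) (a b : ℝ) (Q : ℕ) (c : ℤ) :
    nw S σ a b Q c = (((Wn σ a b Q c).filter fun x => x ∈ S).card : ℝ) := by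
  unfold nw
  rw [← Set.ncard_coe_finset]
  congr 2
  ext x
  rw [Finset.mem_coe, mem_filter, mem_Wn hσ, Set.mem_ofPred_eq]
  tauto

theorem card_Wn {σ : ℤ} (hσ : σ = 1 ∨ σ = -1) {a b : ℝ} (hab : a ≤ b) {Q : ℕ} (hQ : 0 < Q) (c : ℤ) :
    ((Wn σ a b Q c).card : ℝ) ≤ (b - a) / Q + 1 := by
  classical
  refine le_trans (le_of_eq ?_) (nw_le Set.univ hσ hab hQ c)
  rw [nw_card _ hσ]
  congr 2
  ext x
  rw [mem_filter]
  exact ⟨fun h => ⟨h, Set.mem_univ x⟩, fun h => h.1⟩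

theorem ws_norm {f : ℤ → ℂ} (hf : ∀ x, ‖f x‖ ≤ 1) {σ : ℤ} (hσ : σ = 1 ∨ σ = -1) {a b : ℝ} (hab : a ≤ b) {Q : ℕ}
    (hQ : 0 < Q) (c : ℤ) : ‖ws f σ a b Q c‖ ≤ (b - a) / Q + 1 := by
  unfold ws
  refine (norm_sum_le _ _).trans ((sum_le_card_nsmul _ _ 1 fun x _ => hf x).trans ?_)
  rw [nsmul_eq_mul, mul_one]
  exact card_Wn hσ hab hQ c

/-- from subsets to weights -/
theorem transfer {ι : Type*} (s : Finset ι) (κ : ι → ℝ) {B : ℝ} (hB : ∀ t ⊆ s, |∑ i ∈ t, κ i| ≤ B)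
    (g : ι → ℂ) (hg : ∀ i, ‖g i‖ ≤ 1) : ‖∑ i ∈ s, (κ i : ℂ) * g i‖ ≤ 2 * B := by
  classical
  have h1 : ‖∑ i ∈ s, (κ i : ℂ) * g i‖ ≤ ∑ i ∈ s, |κ i| := by
    refine (norm_sum_le _ _).trans (sum_le_sum fun i _ => ?_)
    rw [norm_mul, Complex.norm_real, Real.norm_eq_abs]
    exact mul_le_of_le_one_right (abs_nonneg _) (hg i)
  have h2 : ∑ i ∈ s, |κ i| = ∑ i ∈ s.filter (fun i => 0 ≤ κ i), κ i - ∑ i ∈ s.filter (fun i => ¬ 0 ≤ κ i), κ i := by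
    rw [← sum_filter_add_sum_filter_not s (fun i => 0 ≤ κ i) (fun i => |κ i|), sub_eq_add_neg, ← sum_neg_distrib]
    congr 1
    · exact sum_congr rfl fun i hi => abs_of_nonneg (mem_filter.1 hi).2
    · exact sum_congr rfl fun i hi => abs_of_neg (not_le.1 (mem_filter.1 hi).2)
  have h3 := (abs_le.1 (hB _ (filter_subset (fun i => 0 ≤ κ i) s))).2
  have h4 := (abs_le.1 (hB _ (filter_subset (fun i => ¬ 0 ≤ κ i) s))).1
  linarith

/-- the sums over the windows of functions of the `k`-th iterate -/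
theorem equi_w (h : Adm d m r) (B : ℕ) : ∃ ν L₀ C : ℝ, 0 < ν ∧ 1 ≤ L₀ ∧ 0 < C ∧
    ∀ g : ℤ → ℂ, (∀ z, ‖g z‖ ≤ 1) → ∀ σ : ℤ, (σ = 1 ∨ σ = -1) → ∀ a : ℝ, 0 < a → L₀ ≤ Real.log a →
      ∀ c₁ c₂ : ℤ,
      ‖ws (fun x => g ((Tm d m r)^[⌊3 / 4 * Real.log a / Real.log d⌋₊] x)) σ a (2 * a) (PP d m ^ ⌊ν * Real.log a⌋₊) c₁
        - ws (fun x => g ((Tm d m r)^[⌊3 / 4 * Real.log a / Real.log d⌋₊] x)) σ a (2 * a)
          (PP d m ^ ⌊ν * Real.log a⌋₊) c₂‖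
        ≤ C / (Real.log a) ^ B * (a / (PP d m ^ ⌊ν * Real.log a⌋₊ : ℕ)) := by
  classical
  obtain ⟨ν, L₀, C, hν, hL, hC, H⟩ := equi_pre h B
  refine ⟨ν, L₀, 2 * C, hν, hL, by positivity, fun g hg σ hσ a ha hla c₁ c₂ => ?_⟩
  set k := ⌊3 / 4 * Real.log a / Real.log d⌋₊ with hk
  set Q := PP d m ^ ⌊ν * Real.log a⌋₊ with hQ
  set Z : Finset ℤ := (Wn σ a (2 * a) Q c₁ ∪ Wn σ a (2 * a) Q c₂).image fun x => (Tm d m r)^[k] x with hZ
  have key : ∀ c, (∀ x ∈ Wn σ a (2 * a) Q c, (Tm d m r)^[k] x ∈ Z) →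
      ws (fun x => g ((Tm d m r)^[k] x)) σ a (2 * a) Q c =
      ∑ z ∈ Z, ((((Wn σ a (2 * a) Q c).filter fun x => (Tm d m r)^[k] x = z).card : ℝ) : ℂ) * g z := by
    intro c hc
    unfold ws
    rw [← sum_fiberwise_of_maps_to hc]
    refine sum_congr rfl fun z _ => ?_
    rw [sum_congr rfl (g := fun _ => g z) (fun x hx => by rw [(mem_filter.1 hx).2]), sum_const, nsmul_eq_mul]
    push_cast
    rfl
  rw [key c₁ (fun x hx => mem_image_of_mem _ (mem_union_left _ hx)),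
    key c₂ (fun x hx => mem_image_of_mem _ (mem_union_right _ hx)), ← sum_sub_distrib]
  have e : ∑ z ∈ Z, (((((Wn σ a (2 * a) Q c₁).filter fun x => (Tm d m r)^[k] x = z).card : ℝ) : ℂ) * g z -
      ((((Wn σ a (2 * a) Q c₂).filter fun x => (Tm d m r)^[k] x = z).card : ℝ) : ℂ) * g z) =
      ∑ z ∈ Z, ((((((Wn σ a (2 * a) Q c₁).filter fun x => (Tm d m r)^[k] x = z).card : ℝ) -
      (((Wn σ a (2 * a) Q c₂).filter fun x => (Tm d m r)^[k] x = z).card : ℝ)) : ℝ) : ℂ) * g z := by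
    refine sum_congr rfl fun z _ => ?_
    push_cast
    ring
  rw [e]
  have e2 : 2 * C / Real.log a ^ B * (a / (Q : ℕ)) = 2 * (C / Real.log a ^ B * (a / (Q : ℕ))) := by ring
  rw [e2]
  refine transfer Z _ ?_ g hg
  intro t ht
  have h1 := H (t : Set ℤ) σ hσ a ha hla c₁ c₂
  rw [← hk, ← hQ] at h1
  have e3 : ∀ c, nw {x : ℤ | (Tm d m r)^[k] x ∈ (t : Set ℤ)} σ a (2 * a) Q c =
      ∑ z ∈ t, (((Wn σ a (2 * a) Q c).filter fun x => (Tm d m r)^[k] x = z).card : ℝ) := by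
    intro c
    rw [nw_card _ hσ, card_eq_sum_card_fiberwise (f := fun x => (Tm d m r)^[k] x) (t := t) (fun x hx => by
      have := (mem_filter.1 hx).2
      exact this)]
    push_cast
    refine sum_congr rfl fun z hz => ?_
    congr 2
    ext x
    rw [mem_filter, mem_filter, mem_filter]
    constructor
    · rintro ⟨⟨h1, -⟩, h2⟩; exact ⟨h1, h2⟩
    · rintro ⟨h1, h2⟩
      refine ⟨⟨h1, ?_⟩, h2⟩
      rw [Set.mem_ofPred_eq, h2]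
      exact hz
  rw [e3, e3, ← sum_sub_distrib] at h1
  exact h1

open scoped Classical in
theorem nw_single {σ : ℤ} (hσ : σ = 1 ∨ σ = -1) (a b : ℝ) (Q : ℕ) (c x : ℤ) :
    nw {x} σ a b Q c = if x ∈ Wn σ a b Q c then 1 else 0 := by
  unfold nw
  split_ifs with hx
  · rw [mem_Wn hσ] at hx
    have : {y : ℤ | y ∈ ({x} : Set ℤ) ∧ a ≤ ((σ * y : ℤ) : ℝ) ∧ ((σ * y : ℤ) : ℝ) < b ∧ (Q : ℤ) ∣ y - c} = {x} := by
      ext y
      rw [Set.mem_ofPred_eq, Set.mem_singleton_iff]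
      constructor
      · exact fun h => h.1
      · rintro rfl; exact ⟨rfl, hx⟩
    rw [this, Set.ncard_singleton, Nat.cast_one]
  · rw [mem_Wn hσ] at hx
    have : {y : ℤ | y ∈ ({x} : Set ℤ) ∧ a ≤ ((σ * y : ℤ) : ℝ) ∧ ((σ * y : ℤ) : ℝ) < b ∧ (Q : ℤ) ∣ y - c} = ∅ := by
      ext y
      rw [Set.mem_ofPred_eq, Set.mem_singleton_iff]
      constructor
      · rintro ⟨rfl, h2⟩; exact absurd h2 hx
      · intro h; exact absurd h (Set.notMem_empty _)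
    rw [this, Set.ncard_empty, Nat.cast_zero]

theorem ws_single (f : ℤ → ℂ) {σ : ℤ} (hσ : σ = 1 ∨ σ = -1) (a b : ℝ) (Q : ℕ) (c : ℤ) :
    ws f σ a b Q c = ∑ x ∈ Wn σ a b 1 0, ((nw {x} σ a b Q c : ℝ) : ℂ) * f x := by
  classical
  unfold ws
  have h1 : Wn σ a b Q c = (Wn σ a b 1 0).filter fun x => x ∈ Wn σ a b Q c := by
    ext x
    rw [mem_filter, mem_Wn hσ, mem_Wn hσ]
    constructor
    · rintro ⟨h1, h2, h3⟩
      exact ⟨⟨h1, h2, by simp⟩, h1, h2, h3⟩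
    · exact fun h => h.2
  rw [h1, sum_filter]
  refine sum_congr rfl fun x _ => ?_
  rw [nw_single hσ]
  split_ifs <;> simp

/-- splitting a class mod `Q` into classes mod `Q R` -/
theorem ws_split (f : ℤ → ℂ) {σ : ℤ} (hσ : σ = 1 ∨ σ = -1) {a b : ℝ} (hab : a ≤ b) {Q R : ℕ}
    (hQ : 0 < Q) (hR : 0 < R) (c : ℤ) :
    ws f σ a b Q c = ∑ j ∈ range R, ws f σ a b (Q * R) (c + Q * j) := by
  rw [ws_single f hσ]
  simp only [ws_single f hσ a b (Q * R)]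
  rw [sum_comm]
  refine sum_congr rfl fun x _ => ?_
  rw [nw_split {x} hσ hab hQ hR c, ← sum_mul]
  push_cast
  rfl

/-- the classes of the divisors of the fine modulus -/
theorem coarse_w (h : Adm d m r) (B : ℕ) : ∃ ν L₀ C : ℝ, 0 < ν ∧ 1 ≤ L₀ ∧ 0 < C ∧
    ∀ f g : ℤ → ℂ, (∀ z, ‖g z‖ ≤ 1) → ∀ σ : ℤ, (σ = 1 ∨ σ = -1) → ∀ a : ℝ, 0 < a → L₀ ≤ Real.log a →
      (∀ x ∈ Wn σ a (2 * a) 1 0, f x = g ((Tm d m r)^[⌊3 / 4 * Real.log a / Real.log d⌋₊] x)) →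
      ∀ Q : ℕ, Q ∣ PP d m ^ ⌊ν * Real.log a⌋₊ → ∀ c : ℤ,
      ‖Q * ws f σ a (2 * a) Q c - ws f σ a (2 * a) 1 0‖ ≤ C * Q * a / (Real.log a) ^ B := by
  obtain ⟨ν, L₀, C, hν, hL, hC, H⟩ := equi_w h B
  refine ⟨ν, L₀, 2 * C, hν, hL, by positivity, ?_⟩
  intro f g hg σ hσ a ha hla hf Q hQP c
  have hsame : ∀ Q' c', ws f σ a (2 * a) Q' c' =
      ws (fun x => g ((Tm d m r)^[⌊3 / 4 * Real.log a / Real.log d⌋₊] x)) σ a (2 * a) Q' c' := by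
    intro Q' c'
    unfold ws
    refine sum_congr rfl fun x hx => hf x ?_
    rw [mem_Wn hσ] at hx ⊢
    exact ⟨hx.1, hx.2.1, by simp⟩
  have H' := H g hg σ hσ a ha hla
  simp only [← hsame] at H'
  have hP := PP_pos' h
  have hQ0 : 0 < Q := Nat.pos_of_dvd_of_pos hQP (pow_pos hP _)
  obtain ⟨R, hR⟩ := hQP
  rw [hR] at H'
  have hQR0 : 0 < Q * R := by rw [← hR]; positivity
  have hR0 : 0 < R := by
    rcases Nat.eq_zero_or_pos R with h0 | h0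
    · rw [h0] at hQR0; simp at hQR0
    · exact h0
  have hlog : 0 < Real.log a := by linarith
  set E : ℝ := C / (Real.log a) ^ B * (a / (Q * R : ℕ)) with hE
  have hab : a ≤ 2 * a := by linarith
  have s1 := ws_split f hσ hab hQ0 hR0 c
  have s2 := ws_split f hσ hab (Q := 1) one_pos hQR0 0
  rw [s1, s2]
  set u := ws f σ a (2 * a) (Q * R) 0 with hu
  have e1 : ‖∑ j ∈ range R, ws f σ a (2 * a) (Q * R) (c + Q * j) - R * u‖ ≤ R * E := by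
    have : ∑ j ∈ range R, ws f σ a (2 * a) (Q * R) (c + Q * j) - R * u
        = ∑ j ∈ range R, (ws f σ a (2 * a) (Q * R) (c + Q * j) - u) := by
      rw [Finset.sum_sub_distrib]; simp
    rw [this]
    refine (norm_sum_le _ _).trans ?_
    refine (Finset.sum_le_sum fun j _ => H' _ _).trans ?_
    simp
  have e2 : ‖∑ j ∈ range (Q * R), ws f σ a (2 * a) (1 * (Q * R)) (0 + (1 : ℕ) * j)
      - (Q * R : ℕ) * u‖ ≤ (Q * R : ℕ) * E := by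
    have : ∑ j ∈ range (Q * R), ws f σ a (2 * a) (1 * (Q * R)) (0 + (1 : ℕ) * j)
        - (Q * R : ℕ) * u
        = ∑ j ∈ range (Q * R), (ws f σ a (2 * a) (1 * (Q * R)) (0 + (1 : ℕ) * j) - u) := by
      rw [Finset.sum_sub_distrib]; simp
    rw [this]
    refine (norm_sum_le _ _).trans ?_
    refine (Finset.sum_le_sum (g := fun _ => E) fun j _ => ?_).trans ?_
    · rw [one_mul]; exact H' _ _
    · simp
  have hQr : (1 : ℝ) ≤ Q := by exact_mod_cast hQ0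
  have hRr : (0 : ℝ) < R := by exact_mod_cast hR0
  have hEe : (Q * R : ℕ) * E = C * a / (Real.log a) ^ B := by
    rw [hE]; push_cast
    field_simp
  have key : ‖(Q : ℂ) * ∑ j ∈ range R, ws f σ a (2 * a) (Q * R) (c + Q * j)
      - ∑ j ∈ range (Q * R), ws f σ a (2 * a) (1 * (Q * R)) (0 + (1 : ℕ) * j)‖
      ≤ 2 * ((Q * R : ℕ) * E) := by
    have e3 : (Q : ℂ) * ∑ j ∈ range R, ws f σ a (2 * a) (Q * R) (c + Q * j)
      - ∑ j ∈ range (Q * R), ws f σ a (2 * a) (1 * (Q * R)) (0 + (1 : ℕ) * j) =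
      (Q : ℂ) * (∑ j ∈ range R, ws f σ a (2 * a) (Q * R) (c + Q * j) - R * u) -
      (∑ j ∈ range (Q * R), ws f σ a (2 * a) (1 * (Q * R)) (0 + (1 : ℕ) * j) - (Q * R : ℕ) * u) := by
      push_cast; ring
    rw [e3]
    refine (norm_sub_le _ _).trans ?_
    rw [norm_mul, Complex.norm_natCast]
    have h1 := mul_le_mul_of_nonneg_left e1 (by linarith : (0 : ℝ) ≤ Q)
    push_cast at e2 h1 ⊢
    linarith
  refine key.trans ?_
  rw [hEe]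
  have h3 : 0 ≤ C * a / (Real.log a) ^ B := by positivity
  have h4 : 2 * C * Q * a / (Real.log a) ^ B = Q * (2 * (C * a / (Real.log a) ^ B)) := by ring
  rw [h4]
  nlinarith

end Pool.Agent.K3h45.CT
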