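import Pool.Agent.K3h45.CT.C3
import Pool.Agent.H319R3.DN.T7a
import Pool.Agent.H319R3.DN.T8

/-! Functions which are multiplied by a number of absolute value one under the map. -/

set_option autoImplicit false

namespace Pool.Agent.K3h45.CT
open Pool.Agent.H319R3.GC Pool.Agent.H319R3.DN Finset

variable {d : ℕ} {m r : ℕ → ℤ}

/-- bounded functions with `f x = u * f (T x)` for `|x| > R`, where `|u| = 1` -/
structure Eig (d : ℕ) (m r : ℕ → ℤ) (R : ℝ) (u : ℂ) (f : ℤ → ℂ) : Prop where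
  le_one : ∀ x, ‖f x‖ ≤ 1
  unit : ‖u‖ = 1
  eq : ∀ x : ℤ, R < |(x : ℝ)| → f x = u * f (Tm d m r x)

/-- the sum of the `|r i|` -/
noncomputable def rho (d : ℕ) (r : ℕ → ℤ) : ℝ := ∑ i ∈ range d, |(r i : ℝ)|

theorem rho_nonneg : 0 ≤ rho d r := sum_nonneg fun _ _ => abs_nonneg _

theorem T_eq (h : Adm d m r) (x : ℤ) : (x % d).toNat < d ∧
    (d : ℤ) * Tm d m r x = m (x % d).toNat * x - r (x % d).toNat := by
  have h1 := iter_eq h 1 x
  have h2 := (mem_LW.1 (wd_mem (m := m) (r := r) h.two_le 1 x)).2 (x % d).toNat (by simp [wd])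
  refine ⟨h2, ?_⟩
  simpa [wd, Mw, Ww] using h1

theorem T_ge (h : Adm d m r) (x : ℤ) : |(x : ℝ)| / d - rho d r ≤ |((Tm d m r x : ℤ) : ℝ)| := by
  obtain ⟨h1, h2⟩ := T_eq h x
  set i := (x % d).toNat with hi
  have hd0 : (0 : ℝ) < d := by have := h.two_le; exact_mod_cast (by omega : 0 < d)
  have hd1 : (1 : ℝ) ≤ d := by have := h.two_le; exact_mod_cast (by omega : 1 ≤ d)
  have h3 : (d : ℝ) * ((Tm d m r x : ℤ) : ℝ) = m i * x - r i := by exact_mod_cast h2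
  have hm0 := t7_ne h h1
  have hm1 : (1 : ℝ) ≤ |(m i : ℝ)| := by
    have := Int.one_le_abs hm0
    have h4 : ((1 : ℤ) : ℝ) ≤ ((|m i| : ℤ) : ℝ) := by exact_mod_cast this
    rw [Int.cast_abs] at h4
    simpa using h4
  have h4 : |(r i : ℝ)| ≤ rho d r :=
    single_le_sum (f := fun i => |(r i : ℝ)|) (fun j _ => abs_nonneg _) (mem_range.2 h1)
  have h5 : |(m i : ℝ)| * |(x : ℝ)| - |(r i : ℝ)| ≤ d * |((Tm d m r x : ℤ) : ℝ)| := by
    rw [← abs_of_pos hd0, ← abs_mul, ← abs_mul, h3]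
    have := abs_sub_abs_le_abs_sub ((m i : ℝ) * x) (r i)
    linarith
  have h6 : |(x : ℝ)| ≤ |(m i : ℝ)| * |(x : ℝ)| := le_mul_of_one_le_left (abs_nonneg _) hm1
  rw [sub_le_iff_le_add, div_le_iff₀ hd0]
  nlinarith [rho_nonneg (d := d) (r := r)]

theorem iter_ge (h : Adm d m r) (k : ℕ) (x : ℤ) :
    |(x : ℝ)| / (d : ℝ) ^ k - 2 * rho d r ≤ |(((Tm d m r)^[k] x : ℤ) : ℝ)| := by
  have hd2 : (2 : ℝ) ≤ d := by exact_mod_cast h.two_le
  have hd0 : (0 : ℝ) < d := by linarith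
  have hρ := rho_nonneg (d := d) (r := r)
  induction k with
  | zero =>
    rw [pow_zero, div_one, Function.iterate_zero, id]
    linarith
  | succ k ih =>
    rw [Function.iterate_succ_apply']
    refine le_trans ?_ (T_ge h _)
    have h1 : (|(x : ℝ)| / (d : ℝ) ^ k - 2 * rho d r) / d ≤ |(((Tm d m r)^[k] x : ℤ) : ℝ)| / d :=
      div_le_div_of_nonneg_right ih hd0.le
    have h2 : |(x : ℝ)| / (d : ℝ) ^ (k + 1) = |(x : ℝ)| / (d : ℝ) ^ k / d := by
      rw [pow_succ, div_div]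
    have h3 : 2 * rho d r / d ≤ rho d r := by
      rw [div_le_iff₀ hd0]
      nlinarith
    rw [sub_div] at h1
    rw [h2]
    linarith

theorem eig_iter (h : Adm d m r) {R : ℝ} (hR : 0 ≤ R) {u : ℂ} {f : ℤ → ℂ} (hf : Eig d m r R u f) (k : ℕ) (x : ℤ)
    (hx : (R + 2 * rho d r) * (d : ℝ) ^ k < |(x : ℝ)|) : f x = u ^ k * f ((Tm d m r)^[k] x) := by
  have hd2 : (2 : ℝ) ≤ d := by exact_mod_cast h.two_le
  have hd0 : (0 : ℝ) < d := by linarith
  have hρ := rho_nonneg (d := d) (r := r)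
  induction k with
  | zero => simp
  | succ k ih =>
    have hpow : (d : ℝ) ^ k ≤ (d : ℝ) ^ (k + 1) := pow_le_pow_right₀ (by linarith) (by omega)
    have h1 : (R + 2 * rho d r) * (d : ℝ) ^ k < |(x : ℝ)| :=
      lt_of_le_of_lt (mul_le_mul_of_nonneg_left hpow (by positivity)) hx
    rw [ih h1, Function.iterate_succ_apply', hf.eq ((Tm d m r)^[k] x), pow_succ, mul_assoc]
    refine lt_of_lt_of_le ?_ (iter_ge h k x)
    rw [lt_sub_iff_add_lt, lt_div_iff₀ (by positivity)]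
    exact h1

/-- the normalised sum over a window at the scale `e^t` -/
noncomputable def Aw (f : ℤ → ℂ) (σ : ℤ) (t : ℝ) : ℂ := ws f σ (Real.exp t) (2 * Real.exp t) 1 0 / Real.exp t

theorem Aw_le {f : ℤ → ℂ} (hf : ∀ x, ‖f x‖ ≤ 1) {σ : ℤ} (hσ : σ = 1 ∨ σ = -1) {t : ℝ} (ht : 0 ≤ t) : ‖Aw f σ t‖ ≤ 2 := by
  unfold Aw
  have h1 := ws_norm hf hσ (by have := Real.exp_pos t; linarith : Real.exp t ≤ 2 * Real.exp t) (Q := 1) one_pos 0
  have h2 : 1 ≤ Real.exp t := Real.one_le_exp ht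
  rw [norm_div, Complex.norm_real, Real.norm_eq_abs, abs_of_pos (Real.exp_pos t), div_le_iff₀ (Real.exp_pos t)]
  refine h1.trans ?_
  rw [Nat.cast_one, div_one]
  linarith

end Pool.Agent.K3h45.CT
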