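import Pool.Agent.K3h45.CT.C4

/-! The almost harmonic relation of the sums over the windows. -/

set_option autoImplicit false

namespace Pool.Agent.K3h45.CT
open Pool.Agent.H319R3.GC Pool.Agent.H319R3.DN Finset

variable {d : ℕ} {m r : ℕ → ℤ}

/-- the bijection `x → T x` between the class of `i` mod `d` and a class mod `|m_i|` -/
theorem step_w (h : Adm d m r) {σ : ℤ} (hσ : σ = 1 ∨ σ = -1) {i : ℕ} (hi : i < d) : ∃ c : ℤ, ∀ (f f₁ : ℤ → ℂ) (a b : ℝ),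
    (∀ x ∈ Wn σ a b d i, f x = f₁ (Tm d m r x)) →
    ws f σ a b d i = ws f₁ (σ * (m i).sign)
      (|(m i : ℝ)| * a / d - ((σ * (m i).sign * r i : ℤ) : ℝ) / d)
      (|(m i : ℝ)| * b / d - ((σ * (m i).sign * r i : ℤ) : ℝ) / d) (m i).natAbs c := by
  have hd2 := h.two_le
  have hd0 : (0 : ℝ) < d := by positivity
  have hdz : (d : ℤ) ≠ 0 := by positivity
  have hm0 := t7_ne h hi
  have hmR : 0 < |(m i : ℝ)| := abs_pos.2 (by exact_mod_cast hm0)
  have hτ : σ * (m i).sign = 1 ∨ σ * (m i).sign = -1 := by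
    rcases lt_or_gt_of_ne hm0 with h1 | h1
    · rw [Int.sign_eq_neg_one_of_neg h1]
      rcases hσ with rfl | rfl <;> norm_num
    · rw [Int.sign_eq_one_of_pos h1]
      rcases hσ with rfl | rfl <;> norm_num
  obtain ⟨u, v, huv⟩ := h.cop i hi
  refine ⟨-(v * r i), fun f f₁ a b hf => ?_⟩
  have hT : ∀ x : ℤ, (d : ℤ) ∣ x - i → (d : ℤ) * Tm d m r x = m i * x - r i := by
    intro x hx
    have h1 : (x % (d : ℤ)).toNat = i := by
      have h2 : x % (d : ℤ) = i := by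
        have h3 : x % (d : ℤ) = (i : ℤ) % (d : ℤ) :=
          Int.emod_eq_emod_iff_emod_sub_eq_zero.2 (Int.emod_eq_zero_of_dvd hx)
        rw [h3, Int.emod_eq_of_lt (by positivity) (by exact_mod_cast hi)]
      rw [h2]; simp
    unfold Tm
    rw [h1]
    refine Int.mul_ediv_cancel' ?_
    have h2 : m i * x - r i = m i * (x - i) + (m i * i - r i) := by ring
    rw [h2]
    exact dvd_add (Dvd.dvd.mul_left hx _) (h.adm i hi)
  have hsg : (m i).sign * m i = |m i| := Int.sign_mul_self_eq_abs _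
  have hval : ∀ x y : ℤ, (d : ℤ) * y = m i * x - r i →
      |(m i : ℝ)| * ((σ * x : ℤ) : ℝ) = d * ((σ * (m i).sign * y : ℤ) : ℝ) +
        ((σ * (m i).sign * r i : ℤ) : ℝ) := by
    intro x y hxy
    have h1 : |m i| * (σ * x) = d * (σ * (m i).sign * y) + σ * (m i).sign * r i := by
      rw [← hsg]
      linear_combination (-(σ * (m i).sign)) * hxy
    have h2 := congrArg (fun z : ℤ => (z : ℝ)) h1
    push_cast at h2 ⊢
    exact h2
  have hwin1 : ∀ (x y : ℤ) (w : ℝ), (d : ℤ) * y = m i * x - r i →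
      (w ≤ ((σ * x : ℤ) : ℝ) ↔ |(m i : ℝ)| * w / d - ((σ * (m i).sign * r i : ℤ) : ℝ) / d ≤
        ((σ * (m i).sign * y : ℤ) : ℝ)) := by
    intro x y w hxy
    have h1 := hval x y hxy
    rw [← sub_div, div_le_iff₀ hd0]
    constructor
    · intro h2
      have := mul_le_mul_of_nonneg_left h2 hmR.le
      linarith
    · intro h2
      have h3 : |(m i : ℝ)| * w ≤ |(m i : ℝ)| * ((σ * x : ℤ) : ℝ) := by
        rw [h1]; linarith
      exact le_of_mul_le_mul_left h3 hmR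
  have hcls : ∀ y : ℤ, m i ∣ d * y + r i ↔ ((m i).natAbs : ℤ) ∣ y - -(v * r i) := by
    intro y
    rw [Int.natAbs_dvd]
    constructor
    · rintro ⟨z, hz⟩
      exact ⟨v * z + u * y, by linear_combination v * hz - y * huv⟩
    · rintro ⟨z, hz⟩
      exact ⟨d * z + u * r i, by linear_combination (d : ℤ) * hz - r i * huv⟩
  unfold ws
  refine sum_nbij (fun x => Tm d m r x) ?_ ?_ ?_ hf
  · intro x hx
    rw [mem_Wn hσ] at hx
    obtain ⟨h2, h3, h4⟩ := hx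
    have h5 := hT x h4
    rw [mem_Wn hτ]
    refine ⟨(hwin1 x _ a h5).1 h2, ?_, ?_⟩
    · by_contra h6
      exact absurd ((hwin1 x _ b h5).2 (not_lt.1 h6)) (not_le.2 h3)
    · rw [← hcls]
      exact ⟨x, by linear_combination h5⟩
  · intro x hx x' hx' h5
    rw [mem_coe, mem_Wn hσ] at hx hx'
    have h6 := hT x hx.2.2
    have h7 := hT x' hx'.2.2
    have h8 : Tm d m r x = Tm d m r x' := h5
    rw [h8] at h6
    have h9 : m i * x = m i * x' := by linear_combination h7 - h6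
    exact mul_left_cancel₀ hm0 h9
  · intro y hy
    rw [mem_coe, mem_Wn hτ] at hy
    obtain ⟨h2, h3, h4⟩ := hy
    obtain ⟨x, hx⟩ := (hcls y).2 h4
    have hxy : (d : ℤ) * y = m i * x - r i := by linear_combination hx
    have hxi : (d : ℤ) ∣ x - i := by
      have h5 : (d : ℤ) ∣ m i * (x - i) := by
        have h6 : m i * (x - i) = d * y - (m i * i - r i) := by linear_combination -hxy
        rw [h6]
        exact dvd_sub (dvd_mul_right _ _) (h.adm i hi)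
      exact (h.cop i hi).symm.dvd_of_dvd_mul_left h5
    have hTx : Tm d m r x = y := by
      have h5 := hT x hxi
      rw [← hxy] at h5
      exact mul_left_cancel₀ hdz h5
    refine ⟨x, ?_, hTx⟩
    rw [mem_coe, mem_Wn hσ]
    refine ⟨(hwin1 x y a hxy).2 h2, ?_, hxi⟩
    by_contra h6
    exact absurd ((hwin1 x y b hxy).1 (not_lt.1 h6)) (not_le.2 h3)

/-- changing a window -/
theorem shift_w {f : ℤ → ℂ} (hf : ∀ x, ‖f x‖ ≤ 1) {σ : ℤ} (hσ : σ = 1 ∨ σ = -1) {Q : ℕ} (hQ : 0 < Q) (c : ℤ)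
    (a₁ b₁ a₂ b₂ : ℝ) :
    ‖ws f σ a₁ b₁ Q c - ws f σ a₂ b₂ Q c‖ ≤ 2 * ((|a₂ - a₁| / Q + 1) + (|b₁ - b₂| / Q + 1)) := by
  classical
  have hle : ∀ a₁ b₁ a₂ b₂ : ℝ, (((Wn σ a₁ b₁ Q c) \ (Wn σ a₂ b₂ Q c)).card : ℝ) ≤ (|a₂ - a₁| / Q + 1) + (|b₁ - b₂| / Q + 1) := by
    intro a₁ b₁ a₂ b₂
    have h1 := t7_shift (((Wn σ a₁ b₁ Q c) \ (Wn σ a₂ b₂ Q c) : Finset ℤ) : Set ℤ) hσ hQ c a₁ b₁ a₂ b₂
    rw [nw_card _ hσ, nw_card _ hσ] at h1
    have e1 : (Wn σ a₁ b₁ Q c).filter (fun x => x ∈ (((Wn σ a₁ b₁ Q c) \ (Wn σ a₂ b₂ Q c) : Finset ℤ) : Set ℤ)) =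
        (Wn σ a₁ b₁ Q c) \ (Wn σ a₂ b₂ Q c) := by
      ext x
      rw [mem_filter, mem_coe, mem_sdiff]
      tauto
    have e2 : (Wn σ a₂ b₂ Q c).filter (fun x => x ∈ (((Wn σ a₁ b₁ Q c) \ (Wn σ a₂ b₂ Q c) : Finset ℤ) : Set ℤ)) = ∅ := by
      ext x
      rw [mem_filter, mem_coe, mem_sdiff]
      constructor
      · rintro ⟨h1, h2, h3⟩; exact absurd h1 h3
      · intro h; exact absurd h (notMem_empty _)
    rw [e1, e2, card_empty, Nat.cast_zero, zero_add] at h1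
    linarith
  have e : ws f σ a₁ b₁ Q c - ws f σ a₂ b₂ Q c =
      ∑ x ∈ (Wn σ a₁ b₁ Q c) \ (Wn σ a₂ b₂ Q c), f x - ∑ x ∈ (Wn σ a₂ b₂ Q c) \ (Wn σ a₁ b₁ Q c), f x := by
    unfold ws
    rw [← sum_inter_add_sum_sdiff (Wn σ a₁ b₁ Q c) (Wn σ a₂ b₂ Q c) f,
      ← sum_inter_add_sum_sdiff (Wn σ a₂ b₂ Q c) (Wn σ a₁ b₁ Q c) f, inter_comm]
    ring
  rw [e]
  have hs : ∀ s : Finset ℤ, ‖∑ x ∈ s, f x‖ ≤ s.card := by
    intro s
    refine (norm_sum_le _ _).trans ((sum_le_card_nsmul _ _ 1 fun x _ => hf x).trans ?_)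
    rw [nsmul_eq_mul, mul_one]
  refine (norm_sub_le _ _).trans ?_
  have h1 := (hs _).trans (hle a₁ b₁ a₂ b₂)
  have h2 := (hs _).trans (hle a₂ b₂ a₁ b₁)
  rw [abs_sub_comm a₁ a₂, abs_sub_comm b₂ b₁] at h2
  linarith

end Pool.Agent.K3h45.CT
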