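import Pool.Agent.K3h45.CT.C5

/-! The almost harmonic relation of the sums over the windows. -/

set_option autoImplicit false

namespace Pool.Agent.K3h45.CT
open Pool.Agent.H319R3.GC Pool.Agent.H319R3.DN Finset

variable {d : ℕ} {m r : ℕ → ℤ}

theorem ws_mul (u : ℂ) (f : ℤ → ℂ) (σ : ℤ) (a b : ℝ) (Q : ℕ) (c : ℤ) :
    ws (fun x => u * f x) σ a b Q c = u * ws f σ a b Q c := by
  unfold ws
  rw [mul_sum]

theorem abs_of_mem {σ : ℤ} (hσ : σ = 1 ∨ σ = -1) {a b : ℝ} (ha : 0 ≤ a) {Q : ℕ} {c x : ℤ} (hx : x ∈ Wn σ a b Q c) :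
    a ≤ |(x : ℝ)| ∧ |(x : ℝ)| < b := by
  rw [mem_Wn hσ] at hx
  have h1 : |(x : ℝ)| = ((σ * x : ℤ) : ℝ) := by
    have h0 : 0 ≤ ((σ * x : ℤ) : ℝ) := ha.trans hx.1
    rw [← abs_of_nonneg h0, Int.cast_mul, abs_mul]
    rcases hσ with rfl | rfl <;> norm_num
  rw [h1]
  exact ⟨hx.1, hx.2.1⟩

/-- the `k`-th iterate on a window at a large scale -/
theorem eig_window (h : Adm d m r) {R : ℝ} (hR : 0 ≤ R) {u : ℂ} {f : ℤ → ℂ} (hf : Eig d m r R u f)
    {σ : ℤ} (hσ : σ = 1 ∨ σ = -1) {b : ℝ} (hb : 0 < b) (hlb : 4 * (R + 2 * rho d r) ≤ Real.log b) (hlb0 : 0 ≤ Real.log b)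
    (x : ℤ) (hx : x ∈ Wn σ b (2 * b) 1 0) :
    f x = u ^ ⌊3 / 4 * Real.log b / Real.log d⌋₊ * f ((Tm d m r)^[⌊3 / 4 * Real.log b / Real.log d⌋₊] x) := by
  have hd2 : (2 : ℝ) ≤ d := by exact_mod_cast h.two_le
  have hd0 : (0 : ℝ) < d := by linarith
  have hld : 0 < Real.log d := Real.log_pos (by linarith)
  have hρ := rho_nonneg (d := d) (r := r)
  apply eig_iter h hR hf
  set k := ⌊3 / 4 * Real.log b / Real.log d⌋₊ with hk
  have hk1 : (k : ℝ) * Real.log d ≤ 3 / 4 * Real.log b := by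
    have h1 : (k : ℝ) ≤ 3 / 4 * Real.log b / Real.log d := Nat.floor_le (by positivity)
    rwa [le_div_iff₀ hld] at h1
  have hdk : (d : ℝ) ^ k = Real.exp (k * Real.log d) := by
    rw [Real.exp_nat_mul, Real.exp_log hd0]
  have hb1 : b = Real.exp (3 / 4 * Real.log b) * Real.exp (Real.log b / 4) := by
    rw [← Real.exp_add, show 3 / 4 * Real.log b + Real.log b / 4 = Real.log b by ring, Real.exp_log hb]
  have h2 : R + 2 * rho d r < Real.exp (Real.log b / 4) := by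
    have := Real.add_one_le_exp (Real.log b / 4)
    linarith
  have h3 : (d : ℝ) ^ k ≤ Real.exp (3 / 4 * Real.log b) := by
    rw [hdk]; exact Real.exp_le_exp.2 hk1
  refine lt_of_lt_of_le ?_ (abs_of_mem hσ hb.le hx).1
  calc (R + 2 * rho d r) * (d : ℝ) ^ k ≤ (R + 2 * rho d r) * Real.exp (3 / 4 * Real.log b) :=
        mul_le_mul_of_nonneg_left h3 (by positivity)
    _ < Real.exp (Real.log b / 4) * Real.exp (3 / 4 * Real.log b) :=
        mul_lt_mul_of_pos_right h2 (Real.exp_pos _)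
    _ = b := by rw [mul_comm]; exact hb1.symm

/-- THE ALMOST HARMONIC RELATION -/
theorem harm_e (h : Adm d m r) : ∃ K : ℝ, 0 < K ∧ ∀ R : ℝ, 0 ≤ R → ∃ t₀ : ℝ, 1 ≤ t₀ ∧
    ∀ (u : ℂ) (f : ℤ → ℂ), Eig d m r R u f → ∀ σ : ℤ, (σ = 1 ∨ σ = -1) → ∀ t : ℝ, t₀ ≤ t →
      ‖Aw f σ t - u * (∑ i ∈ range d, Aw f (σ * (m i).sign) (t + Real.log (|(m i : ℝ)| / d))) / d‖ ≤ K / t ^ 2 := by
  obtain ⟨ν, L₀, C, hν, hL₀, hC, hE⟩ := coarse_w h 2
  have hd2 := h.two_le
  have hd0 : (0 : ℝ) < d := by positivity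
  have hd1 : (1 : ℝ) ≤ d := by exact_mod_cast (by omega : 1 ≤ d)
  have hlogd : 0 ≤ Real.log d := Real.log_nonneg hd1
  have hρ := rho_nonneg (d := d) (r := r)
  refine ⟨∑ i ∈ range d, (8 * (|(r i : ℝ)| + 1) + C * |(m i : ℝ)| * 4) + 1, ?_, fun R hR => ?_⟩
  · have : 0 ≤ ∑ i ∈ range d, (8 * (|(r i : ℝ)| + 1) + C * |(m i : ℝ)| * 4) :=
      Finset.sum_nonneg (fun i _ => by positivity)
    linarith
  have hν1 : 0 < 1 / ν := by positivity
  refine ⟨2 * Real.log d + 2 * L₀ + 2 * (1 / ν) + 8 * (R + 2 * rho d r) + 1, by linarith, ?_⟩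
  intro u f hf σ hσ t ht
  have ht0 : 0 < t := by linarith
  set a := Real.exp t with ha
  have ha0 : 0 < a := Real.exp_pos t
  have hainv : 1 / a ≤ 2 / t ^ 2 := by
    have h1 := Real.quadratic_le_exp_of_nonneg ht0.le
    rw [div_le_div_iff₀ ha0 (by positivity)]
    rw [← ha] at h1
    nlinarith
  have hkey : ∀ i ∈ range d, ‖ws f σ a (2 * a) d i / a -
      u * Aw f (σ * (m i).sign) (t + Real.log (|(m i : ℝ)| / d)) / d‖ ≤
      (8 * (|(r i : ℝ)| + 1) + C * |(m i : ℝ)| * 4) / t ^ 2 := by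
    intro i hi'
    have hi := Finset.mem_range.1 hi'
    have hm0 := t7_ne h hi
    have hmR : 0 < |(m i : ℝ)| := abs_pos.2 (by exact_mod_cast hm0)
    have hmnat : ((m i).natAbs : ℝ) = |(m i : ℝ)| := by
      rw [Nat.cast_natAbs]; push_cast; rfl
    have hm1 : (1 : ℝ) ≤ |(m i : ℝ)| := by
      rw [← hmnat]
      exact_mod_cast Int.natAbs_pos.2 hm0
    have hmpos : 0 < (m i).natAbs := Int.natAbs_pos.2 hm0
    have hτ : σ * (m i).sign = 1 ∨ σ * (m i).sign = -1 := by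
      rcases hσ with rfl | rfl <;> rcases lt_or_gt_of_ne hm0 with h1 | h1
      · right; rw [Int.sign_eq_neg_one_of_neg h1]; norm_num
      · left; rw [Int.sign_eq_one_of_pos h1]; norm_num
      · left; rw [Int.sign_eq_neg_one_of_neg h1]; norm_num
      · right; rw [Int.sign_eq_one_of_pos h1]; norm_num
    obtain ⟨c, hc⟩ := step_w h hσ hi
    set τ := σ * (m i).sign with hτdef
    set b := |(m i : ℝ)| * a / d with hb
    have hb0 : 0 < b := by positivity
    have hlogb : t + Real.log (|(m i : ℝ)| / d) = Real.log b := by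
      rw [hb, mul_div_right_comm, Real.log_mul (by positivity) (by positivity), ha, Real.log_exp]
      ring
    have hexpb : Real.exp (t + Real.log (|(m i : ℝ)| / d)) = b := by
      rw [hlogb, Real.exp_log hb0]
    have hlogb2 : t / 2 ≤ Real.log b := by
      rw [← hlogb, Real.log_div (by positivity) (by positivity)]
      have := Real.log_nonneg hm1
      linarith
    have hcb := hc f (fun y => u * f y) a (2 * a) (fun x hx => hf.eq x (by
      have h1 := (abs_of_mem hσ ha0.le hx).1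
      have h2 := Real.add_one_le_exp t
      rw [← ha] at h2
      linarith))
    have e2 : |(m i : ℝ)| * (2 * a) / d = 2 * b := by rw [hb]; ring
    rw [e2, ws_mul] at hcb
    set e := ((τ * r i : ℤ) : ℝ) / d with he
    have heabs : |e| ≤ |(r i : ℝ)| := by
      rw [he, abs_div, abs_of_pos hd0]
      have h1 : |((τ * r i : ℤ) : ℝ)| = |(r i : ℝ)| := by
        push_cast
        rw [abs_mul]
        rcases hτ with h2 | h2 <;> rw [h2] <;> norm_num
      rw [h1]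
      exact div_le_self (abs_nonneg _) hd1
    have hs1 := shift_w hf.le_one hτ hmpos c (b - e) (2 * b - e) b (2 * b)
    have hx1 : |b - (b - e)| / ((m i).natAbs : ℝ) ≤ |(r i : ℝ)| := by
      rw [show b - (b - e) = e by ring, hmnat]
      exact (div_le_self (abs_nonneg _) hm1).trans heabs
    have hx3 : |2 * b - e - 2 * b| / ((m i).natAbs : ℝ) ≤ |(r i : ℝ)| := by
      rw [show 2 * b - e - 2 * b = -e by ring, abs_neg, hmnat]
      exact (div_le_self (abs_nonneg _) hm1).trans heabs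
    have hn1 : ‖ws f σ a (2 * a) d i - u * ws f τ b (2 * b) (m i).natAbs c‖ ≤
        4 * (|(r i : ℝ)| + 1) := by
      rw [hcb, ← mul_sub, norm_mul, hf.unit, one_mul]
      refine hs1.trans ?_
      linarith
    have hQdvd : (m i).natAbs ∣ PP d m ^ ⌊ν * Real.log b⌋₊ := by
      have h1 : (m i).natAbs ∣ PP d m := Finset.dvd_prod_of_mem (fun i => (m i).natAbs) hi'
      have h2 : 1 ≤ ⌊ν * Real.log b⌋₊ := by
        rw [Nat.one_le_floor_iff]
        have h3 : 1 / ν ≤ Real.log b := by linarith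
        rw [div_le_iff₀ hν] at h3
        linarith
      exact h1.trans (dvd_pow_self _ (by omega))
    have hn2 := hE f (fun z => u ^ ⌊3 / 4 * Real.log b / Real.log d⌋₊ * f z) (fun z => by
        rw [norm_mul, norm_pow, hf.unit, one_pow, one_mul]; exact hf.le_one z) τ hτ b hb0 (by linarith)
      (fun x hx => eig_window h hR hf hτ hb0 (by linarith) (by linarith) x hx) (m i).natAbs hQdvd c
    rw [hmnat] at hn2
    have hmC : (((m i).natAbs : ℕ) : ℂ) = ((|(m i : ℝ)| : ℝ) : ℂ) := by rw [← hmnat]; push_cast; rfl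
    rw [hmC] at hn2
    have hmC0 : ((|(m i : ℝ)| : ℝ) : ℂ) ≠ 0 := by exact_mod_cast hmR.ne'
    have hn3 : ‖ws f τ b (2 * b) (m i).natAbs c - ws f τ b (2 * b) 1 0 / ((|(m i : ℝ)| : ℝ) : ℂ)‖ ≤
        C * b * 4 / t ^ 2 := by
      have h1 : ws f τ b (2 * b) (m i).natAbs c - ws f τ b (2 * b) 1 0 / ((|(m i : ℝ)| : ℝ) : ℂ) =
          (((|(m i : ℝ)| : ℝ) : ℂ) * ws f τ b (2 * b) (m i).natAbs c - ws f τ b (2 * b) 1 0) /
            ((|(m i : ℝ)| : ℝ) : ℂ) := by
        field_simp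
      rw [h1, norm_div, Complex.norm_real, Real.norm_eq_abs, abs_abs, div_le_iff₀ hmR]
      refine hn2.trans ?_
      have h2 : (t / 2) ^ 2 ≤ Real.log b ^ 2 := by
        apply pow_le_pow_left₀ (by positivity) hlogb2
      calc C * |(m i : ℝ)| * b / Real.log b ^ 2 ≤ C * |(m i : ℝ)| * b / (t / 2) ^ 2 := by
            apply div_le_div_of_nonneg_left (by positivity) (by positivity) h2
        _ = C * b * 4 / t ^ 2 * |(m i : ℝ)| := by field_simp; ring
    have haC0 : (a : ℂ) ≠ 0 := by exact_mod_cast ha0.ne'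
    have hdC0 : (d : ℂ) ≠ 0 := by exact_mod_cast hd0.ne'
    have hbC : (b : ℂ) = ((|(m i : ℝ)| : ℝ) : ℂ) * a / d := by rw [hb]; push_cast; rfl
    have hF : Aw f τ (t + Real.log (|(m i : ℝ)| / d)) / d =
        ws f τ b (2 * b) 1 0 / ((|(m i : ℝ)| : ℝ) : ℂ) / a := by
      unfold Aw
      rw [hexpb, hbC]
      field_simp
    rw [mul_div_assoc, hF, ← mul_div_assoc, ← sub_div, norm_div, Complex.norm_real, Real.norm_eq_abs, abs_of_pos ha0,
      div_le_iff₀ ha0]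
    have hn4 : ‖ws f σ a (2 * a) d i - u * (ws f τ b (2 * b) 1 0 / ((|(m i : ℝ)| : ℝ) : ℂ))‖ ≤
        4 * (|(r i : ℝ)| + 1) + C * b * 4 / t ^ 2 := by
      calc ‖ws f σ a (2 * a) d i - u * (ws f τ b (2 * b) 1 0 / ((|(m i : ℝ)| : ℝ) : ℂ))‖ =
          ‖(ws f σ a (2 * a) d i - u * ws f τ b (2 * b) (m i).natAbs c) +
            u * (ws f τ b (2 * b) (m i).natAbs c - ws f τ b (2 * b) 1 0 / ((|(m i : ℝ)| : ℝ) : ℂ))‖ := by
            congr 1; ring
        _ ≤ _ := (norm_add_le _ _).trans (add_le_add hn1 (by rw [norm_mul, hf.unit, one_mul]; exact hn3))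
    refine hn4.trans ?_
    have hb2 : b ≤ |(m i : ℝ)| * a := by
      rw [hb]
      exact div_le_self (by positivity) hd1
    have h5 : 1 ≤ 2 / t ^ 2 * a := by
      rw [div_le_iff₀ ha0] at hainv
      exact hainv
    have h6 : C * b * 4 / t ^ 2 ≤ C * (|(m i : ℝ)| * a) * 4 / t ^ 2 := by gcongr
    have h7 : (8 * (|(r i : ℝ)| + 1) + C * |(m i : ℝ)| * 4) / t ^ 2 * a =
        4 * (|(r i : ℝ)| + 1) * (2 / t ^ 2 * a) + C * (|(m i : ℝ)| * a) * 4 / t ^ 2 := by ring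
    rw [h7]
    have h8 : 4 * (|(r i : ℝ)| + 1) * 1 ≤ 4 * (|(r i : ℝ)| + 1) * (2 / t ^ 2 * a) := by
      gcongr
    linarith
  have hsplit : Aw f σ t = ∑ i ∈ range d, ws f σ a (2 * a) d i / a := by
    unfold Aw
    rw [← ha, ws_split f hσ (by linarith : a ≤ 2 * a) one_pos (by omega : 0 < d) 0,
      Finset.sum_div]
    refine Finset.sum_congr rfl (fun i _ => ?_)
    simp
  rw [hsplit, mul_sum, Finset.sum_div, ← Finset.sum_sub_distrib]
  refine (norm_sum_le _ _).trans ((Finset.sum_le_sum hkey).trans ?_)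
  rw [← Finset.sum_div]
  gcongr
  linarith

end Pool.Agent.K3h45.CT
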