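import Mathlib

/-! A maximum principle for random walks with negative drift. -/

set_option autoImplicit false

namespace Pool.Agent.K3h45.CT
open Finset

theorem max_principle {d : ℕ} (hd : 1 ≤ d) {ξ : ℕ → ℝ} {A : ℝ} (hA : ∀ i < d, |ξ i| ≤ A)
    (hdr : ∑ i ∈ range d, ξ i < 0) {e : ℝ → ℝ} {L U M : ℝ} (hb : ∀ t, L - A ≤ t → e t ≤ U)
    (hz : ∀ t, L - A ≤ t → t ≤ L → e t ≤ M)
    (hh : ∀ t, L ≤ t → e t ≤ (∑ i ∈ range d, e (t + ξ i)) / d) : ∀ t, L - A ≤ t → e t ≤ M := by
  have hd0 : (0 : ℝ) < d := by exact_mod_cast (by omega : 0 < d)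
  have key : ∀ η : ℝ, 0 < η → ∀ t, L - A ≤ t → e t - η * (t - (L - A)) ≤ M := by
    intro η hη
    set w : ℝ → ℝ := fun t => e t - η * (t - (L - A)) with hw
    set W : Set ℝ := w '' Set.Ici (L - A) with hW
    have hbd : BddAbove W := by
      refine ⟨U, ?_⟩
      rintro _ ⟨t, ht, rfl⟩
      have ht' : L - A ≤ t := ht
      have h1 := hb t ht'
      have h2 : 0 ≤ η * (t - (L - A)) := mul_nonneg hη.le (by linarith)
      show e t - η * (t - (L - A)) ≤ U
      linarith
    have hne : W.Nonempty := ⟨w (L - A), L - A, Set.self_mem_Ici, rfl⟩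
    by_contra hcon
    push Not at hcon
    obtain ⟨t1, ht1, ht2⟩ := hcon
    set s := sSup W with hs
    have hle : ∀ t, L - A ≤ t → w t ≤ s := fun t ht => le_csSup hbd ⟨t, ht, rfl⟩
    set q : ℝ := -(∑ i ∈ range d, ξ i) / d with hq
    have hq0 : 0 < q := div_pos (by linarith) hd0
    have hsM : M < s := lt_of_lt_of_le ht2 (hle t1 ht1)
    obtain ⟨_, ⟨t, ht, rfl⟩, h3⟩ := exists_lt_of_lt_csSup hne (show max M (s - η * q / 2) < s by
      rw [max_lt_iff]
      refine ⟨hsM, ?_⟩
      have : 0 < η * q := by positivity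
      linarith)
    have ht' : L - A ≤ t := ht
    have h4 : M < w t := lt_of_le_of_lt (le_max_left _ _) h3
    have h5 : s - η * q / 2 < w t := lt_of_le_of_lt (le_max_right _ _) h3
    have hLt : L ≤ t := by
      by_contra h6
      push Not at h6
      have h7 := hz t ht' h6.le
      have h8 : 0 ≤ η * (t - (L - A)) := mul_nonneg hη.le (by linarith)
      have h9 : w t = e t - η * (t - (L - A)) := rfl
      linarith
    have h6 := hh t hLt
    have h7 : ∑ i ∈ range d, e (t + ξ i) ≤ ∑ i ∈ range d, (s + η * (t + ξ i - (L - A))) := by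
      refine sum_le_sum fun i hi => ?_
      have hi' := mem_range.1 hi
      have h8 := (abs_le.1 (hA i hi')).1
      have h9 := hle (t + ξ i) (by linarith)
      have h10 : w (t + ξ i) = e (t + ξ i) - η * (t + ξ i - (L - A)) := rfl
      linarith
    have h8 : ∑ i ∈ range d, (s + η * (t + ξ i - (L - A))) = d * (s + η * (t - (L - A))) + η * ∑ i ∈ range d, ξ i := by
      have : ∀ i ∈ range d, s + η * (t + ξ i - (L - A)) = (s + η * (t - (L - A))) + η * ξ i := fun i _ => by ring
      rw [sum_congr rfl this, sum_add_distrib, sum_const, card_range, nsmul_eq_mul, mul_sum]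
    rw [h8] at h7
    have h9 : (∑ i ∈ range d, e (t + ξ i)) / d ≤ s + η * (t - (L - A)) - η * q := by
      rw [div_le_iff₀ hd0]
      refine h7.trans (le_of_eq ?_)
      rw [hq]
      field_simp
      ring
    have h10 : w t = e t - η * (t - (L - A)) := rfl
    have : 0 < η * q := by positivity
    linarith
  intro t ht
  by_contra hcon
  push Not at hcon
  have h1 : 0 < e t - M := by linarith
  have h2 : 0 ≤ t - (L - A) := by linarith
  have h3 := key ((e t - M) / (2 * (t - (L - A) + 1))) (by positivity) t ht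
  have h4 : (e t - M) / (2 * (t - (L - A) + 1)) * (t - (L - A)) ≤ (e t - M) / 2 := by
    rw [div_mul_eq_mul_div, div_le_div_iff₀ (by positivity) (by norm_num)]
    nlinarith
  linarith

end Pool.Agent.K3h45.CT
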